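import Pool.Agent.H.MP_81c263_nt.Multi

/-!
Averaging over the shift and the final estimate.
-/

set_option autoImplicit false

namespace Pool.Agent.H.MP_81c263_nt

open Finset MeasureTheory

/-! ### Averaging without measurability -/

theorem sum_lintegral_le {α T : Type*} [MeasurableSpace α] (μ : Measure α) (s : Finset T)
    (f : T → α → ENNReal) : ∑ t ∈ s, ∫⁻ a, f t a ∂μ ≤ ∫⁻ a, ∑ t ∈ s, f t a ∂μ := by
  classical
  induction s using Finset.induction_on with
  | empty => simp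
  | insert t s ht ih =>
    simp only [Finset.sum_insert ht]
    calc ∫⁻ a, f t a ∂μ + ∑ t ∈ s, ∫⁻ a, f t a ∂μ
        ≤ ∫⁻ a, f t a ∂μ + ∫⁻ a, ∑ t ∈ s, f t a ∂μ := by gcongr
      _ ≤ ∫⁻ a, (f t a + ∑ t ∈ s, f t a) ∂μ := le_lintegral_add _ _

theorem exists_good_shift {α T : Type*} [MeasurableSpace α] (μ : Measure α) (S : Set α)
    (hS : MeasurableSet S) (hμ : μ S = 1) [Fintype T] [Nonempty T] (F : T → α → α → ℝ)
    (hF : ∀ t x y, 0 ≤ F t x y) (K : ℝ) (hK : 0 ≤ K)
    (h : ∀ x ∈ S, ∀ y ∈ S, ∑ t, F t x y ≤ Fintype.card T * K) :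
    ∃ t, ∫ x in S, ∫ y in S, F t x y ∂μ ∂μ ≤ K := by
  by_contra hcon
  push Not at hcon
  have h1 : ∀ t, ENNReal.ofReal K < ∫⁻ x in S, ∫⁻ y in S, ‖F t x y‖ₑ ∂μ ∂μ := by
    intro t
    have hpos : 0 < ∫ x in S, ∫ y in S, F t x y ∂μ ∂μ := lt_of_le_of_lt hK (hcon t)
    calc ENNReal.ofReal K < ENNReal.ofReal (∫ x in S, ∫ y in S, F t x y ∂μ ∂μ) :=
          (ENNReal.ofReal_lt_ofReal_iff hpos).mpr (hcon t)
      _ ≤ ‖∫ x in S, ∫ y in S, F t x y ∂μ ∂μ‖ₑ := by
          rw [Real.enorm_eq_ofReal hpos.le]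
      _ ≤ ∫⁻ x in S, ‖∫ y in S, F t x y ∂μ‖ₑ ∂μ := enorm_integral_le_lintegral_enorm _
      _ ≤ ∫⁻ x in S, ∫⁻ y in S, ‖F t x y‖ₑ ∂μ ∂μ :=
          lintegral_mono (fun x => enorm_integral_le_lintegral_enorm _)
  have h2 : ∑ t : T, ∫⁻ x in S, ∫⁻ y in S, ‖F t x y‖ₑ ∂μ ∂μ ≤
      ENNReal.ofReal (Fintype.card T * K) := by
    calc ∑ t : T, ∫⁻ x in S, ∫⁻ y in S, ‖F t x y‖ₑ ∂μ ∂μ
        ≤ ∫⁻ x in S, ∑ t : T, ∫⁻ y in S, ‖F t x y‖ₑ ∂μ ∂μ := sum_lintegral_le _ _ _
      _ ≤ ∫⁻ x in S, ∫⁻ y in S, ∑ t : T, ‖F t x y‖ₑ ∂μ ∂μ :=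
          lintegral_mono (fun x => sum_lintegral_le _ _ _)
      _ ≤ ∫⁻ x in S, ∫⁻ y in S, ENNReal.ofReal (Fintype.card T * K) ∂μ ∂μ := by
          apply setLIntegral_mono' hS
          intro x hx
          apply setLIntegral_mono' hS
          intro y hy
          have e1 : ∑ t : T, ‖F t x y‖ₑ = ENNReal.ofReal (∑ t : T, F t x y) := by
            rw [ENNReal.ofReal_sum_of_nonneg (fun t _ => hF t x y)]
            apply Finset.sum_congr rfl
            intro t _
            exact Real.enorm_eq_ofReal (hF t x y)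
          rw [e1]
          exact ENNReal.ofReal_le_ofReal (h x hx y hy)
      _ = ENNReal.ofReal (Fintype.card T * K) := by
          simp [hμ]
  have h3 : ∑ t : T, ENNReal.ofReal K < ∑ t : T, ∫⁻ x in S, ∫⁻ y in S, ‖F t x y‖ₑ ∂μ ∂μ := by
    apply ENNReal.sum_lt_sum_of_nonempty univ_nonempty
    intro t _
    exact h1 t
  have h4 : ∑ t : T, ENNReal.ofReal K = ENNReal.ofReal (Fintype.card T * K) := by
    rw [Finset.sum_const, card_univ, nsmul_eq_mul, ENNReal.ofReal_mul (Nat.cast_nonneg _),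
      ENNReal.ofReal_natCast]
  rw [h4] at h3
  exact absurd h2 (not_le.mpr h3)

/-! ### The bound for fixed corners -/

section

variable {m : ℕ} {b : Fin m → ℕ} [∀ j, NeZero (b j)] {h N : ℕ}

/-- The local discrepancy of the shifted point set. -/
noncomputable def Delta (b : Fin m → ℕ) (h N : ℕ) (t : Om b h) (x y : Fin (m + 1) → ℝ) : ℝ :=
  ∑ n ∈ range N, ∏ i, ind (x i) (y i) (pt b h N t n i) - N * ∏ i, len (x i) (y i)

theorem sum_Delta_pow (hco : ∀ i j, i ≠ j → Nat.Coprime (b i) (b j)) (hN : 0 < N)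
    (hNb : ∀ j, N ≤ b j ^ h) (k : ℕ) (p : ℝ) (hp : 1 ≤ p) (hpk : p ≤ 2 * (k + 1))
    {x y : Fin (m + 1) → ℝ}
    (hx : ∀ i, x i ∈ Set.Ico (0 : ℝ) 1) (hy : ∀ i, y i ∈ Set.Ico (0 : ℝ) 1) :
    ∑ t : Om b h, |Delta b h N t x y| ^ p ≤
      Fintype.card (Om b h) * (2 * (KK b h k + (m + 1)) ^ p) := by
  set K := KK b h k with hK
  have hK0 : 0 < K := KK_pos k
  have hp0 : 0 ≤ p := by linarith
  set D : Om b h → ℝ := fun t => ∑ l, gg b h N x y l t - gg b h N x y 0 t with hD
  have h1 : ∀ t : Om b h, |Delta b h N t x y| ≤ |D t| + (m + 1) := by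
    intro t
    have e1 : Delta b h N t x y = D t + (gg b h N x y 0 t - N * ∏ i, len (x i) (y i)) := by
      rw [Delta, ← sum_gg, hD]
      ring
    rw [e1]
    exact (abs_add_le _ _).trans (by have := gg_zero hx hy hN hNb t; linarith)
  have hm : (0 : ℝ) ≤ (m : ℝ) + 1 := by positivity
  have h2 : ∀ t : Om b h, |Delta b h N t x y| ^ p ≤
      (K + (m + 1)) ^ p * (1 + D t ^ (2 * (k + 1)) / K ^ (2 * (k + 1))) := by
    intro t
    have hnn : 0 ≤ D t ^ (2 * (k + 1)) / K ^ (2 * (k + 1)) := by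
      apply div_nonneg
      · rw [pow_mul]; positivity
      · positivity
    have hKp : 0 ≤ (K + (m + 1)) ^ p := by positivity
    rcases le_or_gt |D t| K with hle | hgt
    · calc |Delta b h N t x y| ^ p ≤ (K + (m + 1)) ^ p := by
            apply Real.rpow_le_rpow (abs_nonneg _) _ hp0
            have := h1 t
            linarith
        _ = (K + (m + 1)) ^ p * 1 := by ring
        _ ≤ _ := by
            apply mul_le_mul_of_nonneg_left _ hKp
            linarith
    · set v := |D t| / K with hv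
      have hv1 : 1 ≤ v := by rw [hv, le_div_iff₀ hK0]; linarith
      have hDv : |D t| = K * v := by rw [hv]; field_simp
      have h3 : |Delta b h N t x y| ≤ (K + (m + 1)) * v := by
        have := h1 t
        rw [hDv] at this
        nlinarith
      have h4 : v ^ p ≤ D t ^ (2 * (k + 1)) / K ^ (2 * (k + 1)) := by
        have e2 : D t ^ (2 * (k + 1)) / K ^ (2 * (k + 1)) = v ^ (2 * (k + 1)) := by
          rw [hv, div_pow, pow_mul |D t|, sq_abs, ← pow_mul]
        rw [e2, ← Real.rpow_natCast]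
        apply Real.rpow_le_rpow_of_exponent_le hv1
        push_cast
        exact hpk
      calc |Delta b h N t x y| ^ p ≤ ((K + (m + 1)) * v) ^ p :=
            Real.rpow_le_rpow (abs_nonneg _) h3 hp0
        _ = (K + (m + 1)) ^ p * v ^ p := Real.mul_rpow (by positivity) (by linarith)
        _ ≤ (K + (m + 1)) ^ p * (D t ^ (2 * (k + 1)) / K ^ (2 * (k + 1))) :=
            mul_le_mul_of_nonneg_left h4 hKp
        _ ≤ _ := by
            apply mul_le_mul_of_nonneg_left _ hKp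
            linarith
  have hmom := moment_bound (h := h) hco hx hy hN k
  have hKpow : 0 < K ^ (2 * (k + 1)) := by positivity
  have hKp : 0 ≤ (K + (m + 1)) ^ p := by positivity
  calc ∑ t : Om b h, |Delta b h N t x y| ^ p
      ≤ ∑ t : Om b h, (K + (m + 1)) ^ p * (1 + D t ^ (2 * (k + 1)) / K ^ (2 * (k + 1))) :=
        Finset.sum_le_sum (fun t _ => h2 t)
    _ = (K + (m + 1)) ^ p * (Fintype.card (Om b h) +
          (∑ t : Om b h, D t ^ (2 * (k + 1))) / K ^ (2 * (k + 1))) := by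
        rw [← Finset.mul_sum, Finset.sum_add_distrib, Finset.sum_const, card_univ, nsmul_eq_mul,
          mul_one, Finset.sum_div]
    _ ≤ (K + (m + 1)) ^ p * (Fintype.card (Om b h) + Fintype.card (Om b h)) := by
        apply mul_le_mul_of_nonneg_left _ hKp
        have : (∑ t : Om b h, D t ^ (2 * (k + 1))) / K ^ (2 * (k + 1)) ≤ Fintype.card (Om b h) := by
          rw [div_le_iff₀ hKpow]
          exact hmom
        linarith
    _ = _ := by ring

omit [∀ j, NeZero (b j)] in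
theorem pt_injOn (hN : 0 < N) (t : Om b h) : Set.InjOn (pt b h N t) (range N : Finset ℕ) := by
  intro n _ n' _ hnn
  have h1 := congrFun hnn 0
  simp only [pt, Fin.cons_zero] at h1
  have hN' : (N : ℝ) ≠ 0 := by exact_mod_cast hN.ne'
  rw [div_left_inj' hN'] at h1
  exact_mod_cast h1

theorem pt_mem (hN : 0 < N) (t : Om b h) {n : ℕ} (hn : n < N) (i : Fin (m + 1)) :
    pt b h N t n i ∈ Set.Ico (0 : ℝ) 1 := by
  have hN' : (0 : ℝ) < N := by exact_mod_cast hN
  refine Fin.cases ?_ (fun j => ?_) i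
  · simp only [pt, Fin.cons_zero]
    refine ⟨by positivity, ?_⟩
    rw [div_lt_one hN']
    exact_mod_cast hn
  · simp only [pt, Fin.cons_succ]
    have h1 : (0 : ℝ) < (b j ^ h : ℕ) := by exact_mod_cast (pow_pos' (b := b j) (h := h))
    refine ⟨by positivity, ?_⟩
    rw [div_lt_one h1]
    exact_mod_cast phi_lt (Nat.pos_of_ne_zero (NeZero.ne (b j))) h _

end

open Classical in
theorem count_eq {d : ℕ} (N : ℕ) (z : ℕ → Fin d → ℝ) (hz : Set.InjOn z (range N : Finset ℕ))
    (x y : Fin d → ℝ) :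
    ((((range N).image z).filter (fun z => ∀ i, inI (x i) (y i) (z i))).card : ℝ) =
      ∑ n ∈ range N, ∏ i, ind (x i) (y i) (z n i) := by
  rw [Finset.filter_image, Finset.card_image_of_injOn
    (hz.mono (by intro n hn; simp only [coe_filter, Set.mem_ofPred_eq] at hn; exact hn.1)),
    Finset.card_filter]
  push_cast
  apply Finset.sum_congr rfl
  intro n _
  unfold ind
  rw [Finset.prod_boole]
  simp

/-- The growth of the constant. -/
theorem KK_growth {m : ℕ} (b : Fin m → ℕ) (k : ℕ) : ∃ C : ℝ, 0 < C ∧ ∀ N : ℕ, 0 < N →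
    2 * (KK b (Nat.log 2 N + 1) k + (m + 1)) ≤ C * (1 + Real.log N) ^ ((m : ℝ) / 2) := by
  set A := 3 * ∏ j, (2 * (b j : ℝ)) with hA
  have hA0 : 0 ≤ A := by positivity
  have hCA : (0 : ℝ) < CA k := lt_of_lt_of_le one_pos (one_le_CA k)
  refine ⟨2 * (Real.sqrt (CA k ^ m * 4 ^ m) * A + (m + 1)), by positivity, ?_⟩
  intro N hN
  have hlog0 : 0 ≤ Real.log N := Real.log_natCast_nonneg N
  set L := 1 + Real.log N with hL
  have hL1 : 1 ≤ L := by linarith
  have hLm : 1 ≤ L ^ ((m : ℝ) / 2) := Real.one_le_rpow hL1 (by positivity)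
  have hh : ((Nat.log 2 N + 1 : ℕ) : ℝ) + 1 ≤ 4 * L := by
    have h1 : (2 : ℝ) ^ (Nat.log 2 N) ≤ N := by exact_mod_cast Nat.pow_log_le_self 2 hN.ne'
    have h2 := Real.log_le_log (by positivity) h1
    rw [Real.log_pow] at h2
    have h3 : (0.6931471803 : ℝ) < Real.log 2 := Real.log_two_gt_d9
    have h4 : (0 : ℝ) ≤ (Nat.log 2 N : ℝ) := Nat.cast_nonneg _
    push_cast
    nlinarith
  have h5 : KK b (Nat.log 2 N + 1) k ≤ (Real.sqrt (CA k ^ m * 4 ^ m) * A) * L ^ ((m : ℝ) / 2) := by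
    unfold KK
    rw [← hA]
    have h6 : Real.sqrt (CA k ^ m * (((Nat.log 2 N + 1 : ℕ) : ℝ) + 1) ^ m) ≤
        Real.sqrt (CA k ^ m * 4 ^ m) * L ^ ((m : ℝ) / 2) := by
      calc Real.sqrt (CA k ^ m * (((Nat.log 2 N + 1 : ℕ) : ℝ) + 1) ^ m)
          ≤ Real.sqrt (CA k ^ m * (4 * L) ^ m) := by
            apply Real.sqrt_le_sqrt
            gcongr
        _ = Real.sqrt (CA k ^ m * 4 ^ m) * Real.sqrt (L ^ m) := by
            rw [mul_pow, ← mul_assoc, Real.sqrt_mul (by positivity)]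
        _ = _ := by
            congr 1
            rw [Real.sqrt_eq_rpow, ← Real.rpow_natCast L m, ← Real.rpow_mul (by linarith)]
            congr 1
            ring
    calc _ ≤ (Real.sqrt (CA k ^ m * 4 ^ m) * L ^ ((m : ℝ) / 2)) * A :=
          mul_le_mul_of_nonneg_right h6 hA0
      _ = _ := by ring
  have h7 : (m : ℝ) + 1 ≤ (m + 1) * L ^ ((m : ℝ) / 2) := by
    have : (0 : ℝ) ≤ (m : ℝ) + 1 := by positivity
    nlinarith
  calc 2 * (KK b (Nat.log 2 N + 1) k + (m + 1))
      ≤ 2 * ((Real.sqrt (CA k ^ m * 4 ^ m) * A) * L ^ ((m : ℝ) / 2) +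
        (m + 1) * L ^ ((m : ℝ) / 2)) := by linarith
    _ = _ := by ring

open Classical in
theorem main (p : ℝ) (hp : 1 ≤ p) (m : ℕ) : ∃ C : ℝ, 0 < C ∧ ∀ N : ℕ,
      ∃ P : Finset (Fin (m + 1) → ℝ), P.card = N ∧
        (∀ z ∈ P, ∀ i, z i ∈ Set.Ico (0 : ℝ) 1) ∧
        (∫ x in Set.pi Set.univ (fun _ : Fin (m + 1) => Set.Ico (0 : ℝ) 1),
          ∫ y in Set.pi Set.univ (fun _ : Fin (m + 1) => Set.Ico (0 : ℝ) 1),
            |((P.filter (fun z => ∀ i, inI (x i) (y i) (z i))).card : ℝ)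
              - (N : ℝ) * ∏ i, len (x i) (y i)| ^ p)
          ^ (1 / p)
        ≤ C * (1 + Real.log (N : ℝ)) ^ ((m : ℝ) / 2) := by
  set b : Fin m → ℕ := fun j => Nat.nth Nat.Prime j with hb
  have hprime : ∀ j, (b j).Prime := fun j => Nat.prime_nth_prime j
  have : ∀ j, NeZero (b j) := fun j => ⟨(hprime j).ne_zero⟩
  have hco : ∀ i j, i ≠ j → Nat.Coprime (b i) (b j) := by
    intro i j hij
    rw [Nat.coprime_primes (hprime i) (hprime j)]
    intro heq
    exact hij (Fin.ext (Nat.nth_injective Nat.infinite_setOfPred_prime heq))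
  set k := ⌈p⌉₊ with hk
  have hpk : p ≤ 2 * ((k : ℝ) + 1) := by
    have := Nat.le_ceil p
    rw [← hk] at this
    linarith
  obtain ⟨C, hC, hCN⟩ := KK_growth b k
  refine ⟨C, hC, ?_⟩
  intro N
  have hp0 : 0 < p := by linarith
  rcases Nat.eq_zero_or_pos N with rfl | hN
  · refine ⟨∅, rfl, by simp, ?_⟩
    simp only [Finset.filter_empty, Finset.card_empty, Nat.cast_zero, zero_mul, sub_zero, abs_zero,
      Real.zero_rpow hp0.ne', integral_zero]
    rw [Real.zero_rpow (by positivity)]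
    simp only [Real.log_zero, add_zero, Real.one_rpow, mul_one]
    exact hC.le
  · set h := Nat.log 2 N + 1 with hh
    have hNb : ∀ j, N ≤ b j ^ h := by
      intro j
      calc N ≤ 2 ^ h := (Nat.lt_pow_succ_log_self (by norm_num) N).le
        _ ≤ b j ^ h := Nat.pow_le_pow_left (hprime j).two_le h
    set S := Set.pi Set.univ (fun _ : Fin (m + 1) => Set.Ico (0 : ℝ) 1) with hS
    have hSmeas : MeasurableSet S := MeasurableSet.univ_pi (fun _ => measurableSet_Ico)
    have hSvol : (volume : Measure (Fin (m + 1) → ℝ)) S = 1 := by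
      rw [hS, volume_pi_pi]
      simp
    have hK0 := KK_pos (b := b) (h := h) k
    have hav := exists_good_shift (volume : Measure (Fin (m + 1) → ℝ)) S hSmeas hSvol
      (T := Om b h) (fun t x y => |Delta b h N t x y| ^ p)
      (fun t x y => Real.rpow_nonneg (abs_nonneg _) _) (2 * (KK b h k + (m + 1)) ^ p)
      (by positivity)
      (fun x hx y hy => sum_Delta_pow hco hN hNb k p hp hpk (fun i => hx i (Set.mem_univ i))
        (fun i => hy i (Set.mem_univ i)))
    obtain ⟨t, ht⟩ := hav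
    refine ⟨(range N).image (pt b h N t), ?_, ?_, ?_⟩
    · rw [Finset.card_image_of_injOn (pt_injOn hN t), card_range]
    · intro z hz i
      obtain ⟨n, hn, rfl⟩ := Finset.mem_image.mp hz
      exact pt_mem hN t (Finset.mem_range.mp hn) i
    · have e1 : ∀ x y : Fin (m + 1) → ℝ,
          (((((range N).image (pt b h N t)).filter (fun z => ∀ i, inI (x i) (y i) (z i))).card : ℝ)
              - (N : ℝ) * ∏ i, len (x i) (y i)) = Delta b h N t x y := by
        intro x y
        rw [count_eq N (pt b h N t) (pt_injOn hN t) x y, Delta]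
      simp only [e1]
      have h2 : (∫ x in S, ∫ y in S, |Delta b h N t x y| ^ p) ^ (1 / p) ≤
          (2 * (KK b h k + (m + 1)) ^ p) ^ (1 / p) := by
        apply Real.rpow_le_rpow _ ht (by positivity)
        apply integral_nonneg
        intro x
        apply integral_nonneg
        intro y
        exact Real.rpow_nonneg (abs_nonneg _) _
      have h3 : (2 * (KK b h k + (m + 1)) ^ p) ^ (1 / p) ≤ 2 * (KK b h k + (m + 1)) := by
        rw [Real.mul_rpow (by norm_num) (by positivity), ← Real.rpow_mul (by positivity),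
          mul_one_div_cancel hp0.ne', Real.rpow_one]
        apply mul_le_mul_of_nonneg_right _ (by positivity)
        calc (2 : ℝ) ^ (1 / p) ≤ 2 ^ (1 : ℝ) := by
              apply Real.rpow_le_rpow_of_exponent_le (by norm_num)
              rw [div_le_one hp0]
              exact hp
          _ = 2 := Real.rpow_one 2
      exact h2.trans (h3.trans (hCN N hN))

end Pool.Agent.H.MP_81c263_nt
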