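import Pool.Agent.H.MP_81c263_nt.OneDim

/-!
Periodic intervals and the one-dimensional decomposition of their indicator functions.
-/

set_option autoImplicit false

namespace Pool.Agent.H.MP_81c263_nt

open Finset

/-- Membership in the periodic interval `I(x, y)`. -/
def inI (x y z : ℝ) : Prop := (x ≤ y ∧ x ≤ z ∧ z < y) ∨ (y < x ∧ (z < y ∨ x ≤ z))

/-- Length of the periodic interval. -/
noncomputable def len (x y : ℝ) : ℝ := if x ≤ y then y - x else 1 - x + y

open scoped Classical in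
/-- Indicator function of the periodic interval. -/
noncomputable def ind (x y z : ℝ) : ℝ := if inI x y z then 1 else 0

/-- The constant `0` or `1`. -/
noncomputable def cc (x y : ℝ) : ℝ := if x ≤ y then 0 else 1

theorem cc_bound (x y : ℝ) : 0 ≤ cc x y ∧ cc x y ≤ 1 := by
  unfold cc; split_ifs <;> norm_num

theorem len_eq (x y : ℝ) : len x y = y - x + cc x y := by
  unfold len cc; split_ifs <;> ring

theorem len_bound {x y : ℝ} (hx : x ∈ Set.Ico (0 : ℝ) 1) (hy : y ∈ Set.Ico (0 : ℝ) 1) :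
    0 ≤ len x y ∧ len x y ≤ 1 := by
  obtain ⟨h1, h2⟩ := hx
  obtain ⟨h3, h4⟩ := hy
  unfold len; split_ifs with h
  · constructor <;> linarith
  · constructor <;> linarith

theorem ind_bound (x y z : ℝ) : 0 ≤ ind x y z ∧ ind x y z ≤ 1 := by
  unfold ind; split_ifs <;> norm_num

theorem ind_eq (x y z : ℝ) :
    ind x y z = (if z < y then 1 else 0) - (if z < x then 1 else 0) + cc x y := by
  unfold ind cc inI
  by_cases hxy : x ≤ y
  · by_cases h1 : z < y
    · by_cases h2 : z < x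
      · have : ¬ ((x ≤ y ∧ x ≤ z ∧ z < y) ∨ (y < x ∧ (z < y ∨ x ≤ z))) := by
          rintro (h | h)
          · linarith [h.2.1]
          · linarith [h.1]
        simp [hxy, h1, h2]
      · have : ((x ≤ y ∧ x ≤ z ∧ z < y) ∨ (y < x ∧ (z < y ∨ x ≤ z))) :=
          Or.inl ⟨hxy, not_lt.mp h2, h1⟩
        simp [hxy, h1, h2]
    · have h2 : ¬ z < x := fun h => h1 (lt_of_lt_of_le h hxy)
      have : ¬ ((x ≤ y ∧ x ≤ z ∧ z < y) ∨ (y < x ∧ (z < y ∨ x ≤ z))) := by
        rintro (h | h)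
        · exact h1 h.2.2
        · linarith [h.1]
      simp [hxy, h1, h2]
  · have hyx : y < x := not_le.mp hxy
    by_cases h1 : z < y
    · have h2 : z < x := h1.trans hyx
      have : ((x ≤ y ∧ x ≤ z ∧ z < y) ∨ (y < x ∧ (z < y ∨ x ≤ z))) := Or.inr ⟨hyx, Or.inl h1⟩
      simp [hxy, h1, h2]
    · by_cases h2 : z < x
      · have : ¬ ((x ≤ y ∧ x ≤ z ∧ z < y) ∨ (y < x ∧ (z < y ∨ x ≤ z))) := by
          rintro (h | h)
          · exact hxy h.1
          · rcases h.2 with h | h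
            · exact h1 h
            · linarith
        simp [hxy, h1, h2]
      · have : ((x ≤ y ∧ x ≤ z ∧ z < y) ∨ (y < x ∧ (z < y ∨ x ≤ z))) :=
          Or.inr ⟨hyx, Or.inr (not_lt.mp h2)⟩
        simp [hxy, h1, h2]

theorem div_lt_iff_ceil {M : ℕ} (hM : 0 < M) (ρ : ℕ) (x : ℝ) :
    (ρ : ℝ) / M < x ↔ ρ < ⌈x * M⌉₊ := by
  have hM' : (0 : ℝ) < M := by exact_mod_cast hM
  rw [Nat.lt_ceil, div_lt_iff₀ hM']

theorem ceil_le {M : ℕ} {x : ℝ} (hx : x ∈ Set.Ico (0 : ℝ) 1) : ⌈x * M⌉₊ ≤ M := by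
  rw [Nat.ceil_le]
  have hM' : (0 : ℝ) ≤ M := Nat.cast_nonneg M
  nlinarith [hx.2]

/-- `| (Y - X)/M + c - len | ≤ 1/M`. -/
theorem ceil_len {M : ℕ} (hM : 0 < M) {x y : ℝ} (hx : x ∈ Set.Ico (0 : ℝ) 1)
    (hy : y ∈ Set.Ico (0 : ℝ) 1) :
    |((⌈y * M⌉₊ : ℝ) - ⌈x * M⌉₊) / M + cc x y - len x y| ≤ 1 / M := by
  have hM' : (0 : ℝ) < M := by exact_mod_cast hM
  have h1 := Nat.le_ceil (y * M)
  have h2 := Nat.ceil_lt_add_one (mul_nonneg hy.1 hM'.le)
  have h3 := Nat.le_ceil (x * M)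
  have h4 := Nat.ceil_lt_add_one (mul_nonneg hx.1 hM'.le)
  rw [len_eq]
  have e : ((⌈y * M⌉₊ : ℝ) - ⌈x * M⌉₊) / M + cc x y - (y - x + cc x y) =
      (((⌈y * M⌉₊ : ℝ) - y * M) - (⌈x * M⌉₊ - x * M)) / M := by
    field_simp
    ring
  rw [e, abs_div, abs_of_pos hM']
  apply div_le_div_of_nonneg_right _ hM'.le
  rw [abs_le]
  constructor <;> linarith

section

variable (b h : ℕ) [NeZero b]

/-- Indicator of the periodic interval composed with digit reversal. -/
noncomputable def fI (x y : ℝ) (r : ZMod (b ^ h)) : ℝ := ind x y ((phi b h r.val : ℝ) / (b ^ h : ℕ))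

variable {b h}

omit [NeZero b] in
theorem fI_bound (x y : ℝ) (r : ZMod (b ^ h)) : 0 ≤ fI b h x y r ∧ fI b h x y r ≤ 1 :=
  ind_bound _ _ _

theorem pow_pos' : 0 < b ^ h := Nat.pow_pos (Nat.pos_of_ne_zero (NeZero.ne b))

theorem fI_eq (x y : ℝ) (r : ZMod (b ^ h)) :
    fI b h x y r = thr b h ⌈y * (b ^ h : ℕ)⌉₊ r - thr b h ⌈x * (b ^ h : ℕ)⌉₊ r + cc x y := by
  unfold fI thr
  rw [ind_eq]
  have h1 := div_lt_iff_ceil (pow_pos' (b := b) (h := h)) (phi b h r.val) y
  have h2 := div_lt_iff_ceil (pow_pos' (b := b) (h := h)) (phi b h r.val) x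
  simp only [h1, h2]

omit [NeZero b] in
theorem fI_inv (x y : ℝ) (r : ZMod (b ^ h)) : fI b h x y (r + uu b h h) = fI b h x y r := by
  rw [uu_top, add_zero]

theorem fI_sum {x y : ℝ} (hx : x ∈ Set.Ico (0 : ℝ) 1) (hy : y ∈ Set.Ico (0 : ℝ) 1) :
    ∑ r, fI b h x y r =
      (⌈y * (b ^ h : ℕ)⌉₊ : ℝ) - ⌈x * (b ^ h : ℕ)⌉₊ + (b ^ h : ℕ) * cc x y := by
  simp only [fI_eq]
  rw [Finset.sum_add_distrib, Finset.sum_sub_distrib, sum_thr _ (ceil_le hy),
    sum_thr _ (ceil_le hx), Finset.sum_const, card_univ, ZMod.card, nsmul_eq_mul]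

variable (b h) in
/-- Martingale differences of the interval function. -/
noncomputable def DD (x y : ℝ) (k : ℕ) : ZMod (b ^ h) → ℝ := dd b h (uu b h) (fI b h x y) k

omit [NeZero b] in
theorem DD_sum (x y : ℝ) (r : ZMod (b ^ h)) :
    ∑ k ∈ range (h + 1), DD b h x y k r = fI b h x y r := dd_sum r

omit [NeZero b] in
theorem DD_inv (x y : ℝ) {k : ℕ} (hk : k ≤ h) (r : ZMod (b ^ h)) :
    DD b h x y k (r + uu b h k) = DD b h x y k r :=
  dd_inv (fun i => uu_succ i) (fI_inv x y) k hk r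

theorem DD_mart (x y : ℝ) {k : ℕ} (hk : k + 1 ≤ h) (r : ZMod (b ^ h)) :
    ∑ s ∈ range b, DD b h x y (k + 1) (r + s • uu b h k) = 0 :=
  dd_mart (Nat.pos_of_ne_zero (NeZero.ne b)) (fun i => uu_succ i) (fI_inv x y) k hk r

theorem DD_bound (x y : ℝ) (k : ℕ) (r : ZMod (b ^ h)) : |DD b h x y k r| ≤ 1 :=
  dd_bound (Nat.pos_of_ne_zero (NeZero.ne b)) (fI_bound x y) k r

omit [NeZero b] in
theorem DD_periodic (x y : ℝ) {k : ℕ} (hk : k ≤ h) (t : ZMod (b ^ h)) :
    Function.Periodic (fun n : ℕ => DD b h x y k (t + (n : ZMod (b ^ h)))) (b ^ k) := by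
  intro n
  simp only
  rw [← DD_inv x y hk (t + (n : ZMod (b ^ h)))]
  congr 1
  rw [uu]
  push_cast
  ring

theorem DD_sum_period (x y : ℝ) {k : ℕ} (hk : k + 1 ≤ h) (t : ZMod (b ^ h)) :
    ∑ n ∈ range (b ^ (k + 1)), DD b h x y (k + 1) (t + (n : ZMod (b ^ h))) = 0 := by
  rw [pow_succ, sum_range_mul_eq]
  apply Finset.sum_eq_zero
  intro i _
  have := DD_mart x y hk (t + (i : ZMod (b ^ h)))
  rw [← this]
  apply Finset.sum_congr rfl
  intro s _
  congr 1
  rw [uu, nsmul_eq_mul]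
  push_cast
  ring

theorem DD_abs_sum (x y : ℝ) {k : ℕ} (hk : k ≤ h) (t : ZMod (b ^ h)) :
    ∑ n ∈ range (b ^ k), |DD b h x y k (t + (n : ZMod (b ^ h)))| ≤ 2 * b := by
  have hb : 0 < b := Nat.pos_of_ne_zero (NeZero.ne b)
  have hb' : (1 : ℝ) ≤ b := by exact_mod_cast hb
  cases k with
  | zero =>
    simp only [pow_zero, Finset.sum_range_one]
    have := DD_bound x y 0 (t + ((0 : ℕ) : ZMod (b ^ h)))
    linarith
  | succ k =>
    set X := ⌈x * (b ^ h : ℕ)⌉₊ with hX
    set Y := ⌈y * (b ^ h : ℕ)⌉₊ with hY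
    have key : ∀ n : ℕ, |DD b h x y (k + 1) (t + (n : ZMod (b ^ h)))| ≤
        (if phi b k (t.val + n) = X / b ^ (h - k) then (1 : ℝ) else 0) +
          (if phi b k (t.val + n) = Y / b ^ (h - k) then (1 : ℝ) else 0) := by
      intro n
      have hk' : k ≤ h := by lia
      by_cases h1 : phi b k (t.val + n) = X / b ^ (h - k)
      · rw [if_pos h1]
        have := DD_bound x y (k + 1) (t + (n : ZMod (b ^ h)))
        have h2 : (0 : ℝ) ≤ (if phi b k (t.val + n) = Y / b ^ (h - k) then (1 : ℝ) else 0) := by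
          split_ifs <;> norm_num
        linarith
      · by_cases h2 : phi b k (t.val + n) = Y / b ^ (h - k)
        · rw [if_neg h1, if_pos h2]
          have := DD_bound x y (k + 1) (t + (n : ZMod (b ^ h)))
          linarith
        · rw [if_neg h1, if_neg h2]
          rw [← phi_val_add hk'] at h1 h2
          have h3 : DD b h x y (k + 1) (t + (n : ZMod (b ^ h))) = 0 := by
            apply dd_zero_of_const hb (fun i => uu_succ i) k hk _
              ((if phi b k (t + (n : ZMod (b ^ h))).val < Y / b ^ (h - k) then (1 : ℝ) else 0) -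
                (if phi b k (t + (n : ZMod (b ^ h))).val < X / b ^ (h - k) then (1 : ℝ) else 0) +
                cc x y)
            intro n'
            rw [fI_eq, thr_const hk' _ _ h2, thr_const hk' _ _ h1]
          rw [h3]
          simp
    calc ∑ n ∈ range (b ^ (k + 1)), |DD b h x y (k + 1) (t + (n : ZMod (b ^ h)))|
        ≤ ∑ n ∈ range (b ^ (k + 1)),
          ((if phi b k (t.val + n) = X / b ^ (h - k) then (1 : ℝ) else 0) +
          (if phi b k (t.val + n) = Y / b ^ (h - k) then (1 : ℝ) else 0)) :=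
          Finset.sum_le_sum (fun n _ => key n)
      _ ≤ b + b := by
          rw [Finset.sum_add_distrib]
          have h4 : ∀ w, ∑ n ∈ range (b ^ (k + 1)),
              (if phi b k (t.val + n) = w then (1 : ℝ) else 0) ≤ b := by
            intro w
            rw [← Finset.sum_filter, Finset.sum_const, nsmul_eq_mul, mul_one]
            exact_mod_cast card_phi_eq_le k t.val w
          exact add_le_add (h4 _) (h4 _)
      _ = 2 * b := by ring

/-- `DD 0` is constant, equal to the mean value of the indicator function. -/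
theorem DD_zero {x y : ℝ} (hx : x ∈ Set.Ico (0 : ℝ) 1) (hy : y ∈ Set.Ico (0 : ℝ) 1)
    (r : ZMod (b ^ h)) :
    DD b h x y 0 r = ((⌈y * (b ^ h : ℕ)⌉₊ : ℝ) - ⌈x * (b ^ h : ℕ)⌉₊) / (b ^ h : ℕ) + cc x y := by
  have hb : 0 < b := Nat.pos_of_ne_zero (NeZero.ne b)
  have hM : (0 : ℝ) < (b ^ h : ℕ) := by exact_mod_cast (pow_pos' (b := b) (h := h))
  have hconst : ∀ r : ZMod (b ^ h), DD b h x y 0 r = DD b h x y 0 0 := by
    intro r
    have h1 : ∀ n : ℕ, DD b h x y 0 ((n : ZMod (b ^ h))) = DD b h x y 0 0 := by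
      intro n
      induction n with
      | zero => simp
      | succ n ih =>
        have := DD_inv (b := b) (h := h) x y (Nat.zero_le h) (n : ZMod (b ^ h))
        rw [uu_zero] at this
        push_cast
        rw [this, ih]
    have := h1 r.val
    rwa [ZMod.natCast_zmod_val] at this
  have h2 : ∑ r, DD b h x y 0 r = ∑ r, fI b h x y r := EE_sum hb h
  have h3 : ∑ r : ZMod (b ^ h), DD b h x y 0 r = (b ^ h : ℕ) * DD b h x y 0 0 := by
    rw [Finset.sum_congr rfl (fun r _ => hconst r), Finset.sum_const, card_univ, ZMod.card,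
      nsmul_eq_mul]
  rw [h3, fI_sum hx hy] at h2
  rw [hconst r]
  apply mul_left_cancel₀ hM.ne'
  rw [h2, mul_add, mul_div_cancel₀ _ hM.ne']

end

end Pool.Agent.H.MP_81c263_nt
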