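import Mathlib

/-!
A moment inequality for multi-parameter martingale differences on a finite abelian group.
-/

set_option autoImplicit false

namespace Pool.Agent.H.MP_81c263_nt

open Finset

theorem exists_pointwise (k : ℕ) : ∃ C : ℝ, 1 ≤ C ∧ ∀ x d : ℝ,
    (x + d) ^ (2 * (k + 1)) ≤ x ^ (2 * (k + 1)) + 2 * (k + 1) * (x ^ (2 * k + 1) * d) +
      C * (x ^ (2 * k) * d ^ 2 + d ^ (2 * (k + 1))) := by
  induction k with
  | zero =>
    refine ⟨1, le_rfl, fun x d => ?_⟩
    norm_num
    nlinarith [sq_nonneg d]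
  | succ k ih =>
    obtain ⟨C, hC, h⟩ := ih
    refine ⟨10 * (k + 1) + 10 * C, by nlinarith [(Nat.cast_nonneg k : (0 : ℝ) ≤ k)], fun x d => ?_⟩
    have hk : (0 : ℝ) ≤ k := Nat.cast_nonneg k
    set p : ℝ := x ^ (2 * k) with hp
    set r : ℝ := d ^ (2 * (k + 1)) with hr
    have hp' : p = (x ^ 2) ^ k := by rw [hp, pow_mul]
    have hr' : r = (d ^ 2) ^ k * d ^ 2 := by rw [hr, pow_mul, pow_succ]
    have hp0 : 0 ≤ p := by rw [hp']; positivity
    have hr0 : 0 ≤ r := by rw [hr']; positivity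
    have e1 : x ^ (2 * (k + 1)) = p * x ^ 2 := by rw [hp, ← pow_add]; ring_nf
    have e2 : x ^ (2 * k + 1) = p * x := by rw [hp, ← pow_succ]
    have e3 : x ^ (2 * (k + 1 + 1)) = p * x ^ 4 := by rw [hp, ← pow_add]; ring_nf
    have e4 : x ^ (2 * (k + 1) + 1) = p * x ^ 3 := by rw [hp, ← pow_add]; ring_nf
    have e5 : d ^ (2 * (k + 1 + 1)) = r * d ^ 2 := by rw [hr, ← pow_add]; ring_nf
    have e6 : (x + d) ^ (2 * (k + 1 + 1)) = (x + d) ^ (2 * (k + 1)) * (x + d) ^ 2 := by
      rw [← pow_add]; ring_nf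
    have hxd := h x d
    rw [e1, e2] at hxd
    rw [e1, e3, e4, e5, e6]
    have h2 : (x + d) ^ (2 * (k + 1)) * (x + d) ^ 2 ≤
        (p * x ^ 2 + 2 * (k + 1) * (p * x * d) + C * (p * d ^ 2 + r)) * (x + d) ^ 2 :=
      mul_le_mul_of_nonneg_right hxd (sq_nonneg _)
    -- auxiliary inequalities
    set S : ℝ := p * x ^ 2 * d ^ 2 + r * d ^ 2 with hS
    have hS0 : 0 ≤ S := by positivity
    have a0 : p * x ^ 2 * d ^ 2 ≤ S := by
      have : 0 ≤ r * d ^ 2 := by positivity
      linarith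
    have a00 : r * d ^ 2 ≤ S := by
      have : 0 ≤ p * x ^ 2 * d ^ 2 := by positivity
      linarith
    have a1 : p * d ^ 4 ≤ S := by
      rcases le_total (d ^ 2) (x ^ 2) with hle | hle
      · have h14 : p * d ^ 4 ≤ p * x ^ 2 * d ^ 2 := by
          have h15 := mul_le_mul_of_nonneg_left hle (by positivity : (0 : ℝ) ≤ p * d ^ 2)
          have h16 : p * d ^ 2 * d ^ 2 = p * d ^ 4 := by ring
          have h17 : p * d ^ 2 * x ^ 2 = p * x ^ 2 * d ^ 2 := by ring
          linarith
        linarith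
      · have hpr : p * d ^ 2 ≤ r := by
          rw [hp', hr']
          exact mul_le_mul_of_nonneg_right (pow_le_pow_left₀ (sq_nonneg x) hle k) (sq_nonneg d)
        have h14 : p * d ^ 4 ≤ r * d ^ 2 := by
          have h15 := mul_le_mul_of_nonneg_right hpr (sq_nonneg d)
          have h16 : p * d ^ 2 * d ^ 2 = p * d ^ 4 := by ring
          linarith
        linarith
    have a2 : r * x ^ 2 ≤ S := by
      rcases le_total (d ^ 2) (x ^ 2) with hle | hle
      · have hpr : r ≤ p * d ^ 2 := by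
          rw [hp', hr']
          exact mul_le_mul_of_nonneg_right (pow_le_pow_left₀ (sq_nonneg d) hle k) (sq_nonneg d)
        have h14 : r * x ^ 2 ≤ p * x ^ 2 * d ^ 2 := by
          have h15 := mul_le_mul_of_nonneg_right hpr (sq_nonneg x)
          have h16 : p * d ^ 2 * x ^ 2 = p * x ^ 2 * d ^ 2 := by ring
          linarith
        linarith
      · have : r * x ^ 2 ≤ r * d ^ 2 := mul_le_mul_of_nonneg_left hle hr0
        linarith
    have a3 : p * (x * d ^ 3) ≤ S := by
      have h9 : x * d ^ 3 ≤ (x ^ 2 * d ^ 2 + d ^ 4) / 2 := by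
        have h10 := sq_nonneg (x * d - d ^ 2)
        have h11 : (x * d - d ^ 2) ^ 2 = x ^ 2 * d ^ 2 - 2 * (x * d ^ 3) + d ^ 4 := by ring
        linarith
      have h12 := mul_le_mul_of_nonneg_left h9 hp0
      have h13 : p * ((x ^ 2 * d ^ 2 + d ^ 4) / 2) = (p * x ^ 2 * d ^ 2 + p * d ^ 4) / 2 := by ring
      rw [h13] at h12
      linarith
    have a4 : (p * d ^ 2 + r) * (x + d) ^ 2 ≤ 8 * S := by
      have h5 : (x + d) ^ 2 ≤ 2 * x ^ 2 + 2 * d ^ 2 := by
        have := sq_nonneg (x - d)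
        have e : 2 * x ^ 2 + 2 * d ^ 2 - (x + d) ^ 2 = (x - d) ^ 2 := by ring
        linarith
      have h6 := mul_le_mul_of_nonneg_left h5 (by positivity : (0 : ℝ) ≤ p * d ^ 2 + r)
      have h7 : (p * d ^ 2 + r) * (2 * x ^ 2 + 2 * d ^ 2) =
          2 * (p * x ^ 2 * d ^ 2) + 2 * (p * d ^ 4) + 2 * (r * x ^ 2) + 2 * (r * d ^ 2) := by ring
      rw [h7] at h6
      linarith
    clear hxd h e1 e2 e3 e4 e5 e6 hp hr hp' hr'
    clear_value p r
    calc (x + d) ^ (2 * (k + 1)) * (x + d) ^ 2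
        ≤ (p * x ^ 2 + 2 * (k + 1) * (p * x * d) + C * (p * d ^ 2 + r)) * (x + d) ^ 2 := h2
      _ = p * x ^ 4 + 2 * ((k + 1 : ℝ) + 1) * (p * x ^ 3 * d) +
          ((1 + 4 * (k + 1)) * (p * x ^ 2 * d ^ 2) + 2 * (k + 1) * (p * (x * d ^ 3)) +
            C * ((p * d ^ 2 + r) * (x + d) ^ 2)) := by ring
      _ ≤ p * x ^ 4 + 2 * ((k + 1 : ℝ) + 1) * (p * x ^ 3 * d) +
          ((1 + 4 * (k + 1)) * S + 2 * (k + 1) * S + C * (8 * S)) := by
          have b1 := mul_le_mul_of_nonneg_left a0 (by positivity : (0 : ℝ) ≤ 1 + 4 * (k + 1))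
          have b2 := mul_le_mul_of_nonneg_left a3 (by positivity : (0 : ℝ) ≤ 2 * (k + 1))
          have b3 := mul_le_mul_of_nonneg_left a4 (by linarith : (0 : ℝ) ≤ C)
          linarith
      _ ≤ _ := by
          have : (1 + 4 * ((k : ℝ) + 1)) * S + 2 * (k + 1) * S + C * (8 * S) ≤
              (10 * (k + 1) + 10 * C) * S := by
            have h8 : 0 ≤ (10 * ((k : ℝ) + 1) + 10 * C - (1 + 4 * (k + 1)) - 2 * (k + 1) - 8 * C) * S := by
              apply mul_nonneg _ hS0
              linarith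
            linarith
          push_cast
          rw [hS] at this
          linarith

/-- `Nq k f = (∑ f ^ (2 (k+1))) ^ (1 / (k+1))`. -/
noncomputable def Nq {Om : Type} [Fintype Om] (k : ℕ) (f : Om → ℝ) : ℝ :=
  (∑ w, f w ^ (2 * (k + 1))) ^ ((((k + 1 : ℕ) : ℝ))⁻¹)

section

variable {Om : Type} [Fintype Om]

theorem sum_pow_nonneg (k : ℕ) (f : Om → ℝ) : 0 ≤ ∑ w, f w ^ (2 * (k + 1)) :=
  Finset.sum_nonneg (fun w _ => by rw [pow_mul]; positivity)

theorem Nq_nonneg (k : ℕ) (f : Om → ℝ) : 0 ≤ Nq k f :=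
  Real.rpow_nonneg (sum_pow_nonneg k f) _

theorem Nq_pow (k : ℕ) (f : Om → ℝ) : Nq k f ^ (k + 1) = ∑ w, f w ^ (2 * (k + 1)) :=
  Real.rpow_inv_natCast_pow (sum_pow_nonneg k f) (Nat.succ_ne_zero k)

theorem holder (k : ℕ) (X D : Om → ℝ) :
    ∑ w, X w ^ (2 * k) * D w ^ 2 ≤ Nq k X ^ k * Nq k D := by
  rcases Nat.eq_zero_or_pos k with rfl | hk
  · simp [Nq]
  · have hk' : (0 : ℝ) < k := by exact_mod_cast hk
    have hpq : Real.HolderConjugate (((k : ℝ) + 1) / k) ((k : ℝ) + 1) := by
      rw [Real.holderConjugate_iff]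
      constructor
      · rw [lt_div_iff₀ hk']; linarith
      · field_simp
    have h := Real.inner_le_Lp_mul_Lq_of_nonneg (s := Finset.univ) (f := fun w => X w ^ (2 * k))
      (g := fun w => D w ^ 2) hpq (fun w _ => by rw [pow_mul]; positivity)
      (fun w _ => by positivity)
    refine h.trans (le_of_eq ?_)
    congr 1
    · rw [one_div_div]
      have e1 : ∀ w, (X w ^ (2 * k)) ^ (((k : ℝ) + 1) / k) = X w ^ (2 * (k + 1)) := by
        intro w
        rw [pow_mul, pow_mul, ← Real.rpow_natCast (X w ^ 2) k, ← Real.rpow_mul (sq_nonneg _),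
          mul_div_cancel₀ _ hk'.ne', ← Real.rpow_natCast (X w ^ 2) (k + 1)]
        push_cast
        rfl
      simp only [e1]
      rw [Nq, ← Real.rpow_natCast _ k, ← Real.rpow_mul (sum_pow_nonneg k X)]
      congr 1
      push_cast
      field_simp
    · have e2 : ∀ w, (D w ^ 2) ^ ((k : ℝ) + 1) = D w ^ (2 * (k + 1)) := by
        intro w
        rw [pow_mul, ← Real.rpow_natCast (D w ^ 2) (k + 1)]
        push_cast
        rfl
      simp only [e2]
      rw [Nq]
      push_cast
      rw [one_div]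

end

/-- Lemma A: the constant for the exponent `2 (k+1)`. -/
theorem exists_lemmaA (k : ℕ) : ∃ C : ℝ, 1 ≤ C ∧ ∀ (Om : Type) [Fintype Om] (X D : Om → ℝ),
    ∑ w, X w ^ (2 * k + 1) * D w = 0 → Nq k (fun w => X w + D w) ≤ Nq k X + C * Nq k D := by
  obtain ⟨C, hC, h⟩ := exists_pointwise k
  refine ⟨2 * C, by linarith, ?_⟩
  intro Om _ X D h0
  set a := Nq k X with ha
  set b := Nq k D with hb
  have ha0 : 0 ≤ a := Nq_nonneg k X
  have hb0 : 0 ≤ b := Nq_nonneg k D
  have h1 : ∑ w, (X w + D w) ^ (2 * (k + 1)) ≤ a ^ (k + 1) + C * (a ^ k * b + b ^ (k + 1)) := by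
    calc ∑ w, (X w + D w) ^ (2 * (k + 1))
        ≤ ∑ w, (X w ^ (2 * (k + 1)) + 2 * (k + 1) * (X w ^ (2 * k + 1) * D w) +
            C * (X w ^ (2 * k) * D w ^ 2 + D w ^ (2 * (k + 1)))) :=
          Finset.sum_le_sum (fun w _ => h (X w) (D w))
      _ = a ^ (k + 1) + C * (∑ w, X w ^ (2 * k) * D w ^ 2 + b ^ (k + 1)) := by
          rw [Finset.sum_add_distrib, Finset.sum_add_distrib, ← Finset.mul_sum, h0,
            ← Finset.mul_sum, Finset.sum_add_distrib, ha, hb, Nq_pow, Nq_pow]
          ring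
      _ ≤ a ^ (k + 1) + C * (a ^ k * b + b ^ (k + 1)) := by
          have := holder k X D
          have h3 := mul_le_mul_of_nonneg_left this (by linarith : (0 : ℝ) ≤ C)
          rw [← ha, ← hb] at h3
          nlinarith
  have h2 : a ^ (k + 1) + C * (a ^ k * b + b ^ (k + 1)) ≤ (a + 2 * C * b) ^ (k + 1) := by
    set c := 2 * C * b with hc
    have hc0 : 0 ≤ c := by positivity
    have i1 : a ^ (k + 1) + a ^ k * c ≤ (a + c) ^ (k + 1) := by
      have : a ^ k ≤ (a + c) ^ k := pow_le_pow_left₀ ha0 (by linarith) k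
      have := mul_le_mul_of_nonneg_right this (by linarith : 0 ≤ a + c)
      calc a ^ (k + 1) + a ^ k * c = a ^ k * (a + c) := by ring
        _ ≤ (a + c) ^ k * (a + c) := this
        _ = (a + c) ^ (k + 1) := by ring
    have i2 : a ^ (k + 1) + c ^ (k + 1) ≤ (a + c) ^ (k + 1) := by
      have j1 : a ^ k ≤ (a + c) ^ k := pow_le_pow_left₀ ha0 (by linarith) k
      have j2 : c ^ k ≤ (a + c) ^ k := pow_le_pow_left₀ hc0 (by linarith) k
      have j3 := mul_le_mul_of_nonneg_left j1 ha0
      have j4 := mul_le_mul_of_nonneg_left j2 hc0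
      calc a ^ (k + 1) + c ^ (k + 1) = a * a ^ k + c * c ^ k := by ring
        _ ≤ a * (a + c) ^ k + c * (a + c) ^ k := by linarith
        _ = (a + c) ^ (k + 1) := by ring
    have i3 : 2 * (C * (a ^ k * b)) = a ^ k * c := by rw [hc]; ring
    have i4 : 2 * (C * b ^ (k + 1)) ≤ c ^ (k + 1) := by
      rw [hc, mul_pow]
      have : 2 * C ≤ (2 * C) ^ (k + 1) := by
        calc 2 * C = (2 * C) ^ 1 := (pow_one _).symm
          _ ≤ (2 * C) ^ (k + 1) := pow_le_pow_right₀ (by linarith) (by lia)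
      have := mul_le_mul_of_nonneg_right this (by positivity : 0 ≤ b ^ (k + 1))
      linarith
    nlinarith
  have h3 : (Nq k (fun w => X w + D w)) ^ (k + 1) ≤ (a + 2 * C * b) ^ (k + 1) := by
    rw [Nq_pow]; exact h1.trans h2
  exact le_of_pow_le_pow_left₀ (Nat.succ_ne_zero k) (by positivity) h3

/-- The constant of Lemma A. -/
noncomputable def CA (k : ℕ) : ℝ := (exists_lemmaA k).choose

theorem one_le_CA (k : ℕ) : 1 ≤ CA k := (exists_lemmaA k).choose_spec.1

theorem lemmaA (k : ℕ) {Om : Type} [Fintype Om] (X D : Om → ℝ)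
    (h : ∑ w, X w ^ (2 * k + 1) * D w = 0) :
    Nq k (fun w => X w + D w) ≤ Nq k X + CA k * Nq k D :=
  (exists_lemmaA k).choose_spec.2 Om X D h

section group

variable {Om : Type} [Fintype Om] [AddCommGroup Om]

omit [Fintype Om] in
theorem inv_nsmul {X : Om → ℝ} {u : Om} (h : ∀ t, X (t + u) = X t) (n : ℕ) (t : Om) :
    X (t + n • u) = X t := by
  induction n with
  | zero => simp
  | succ n ih => rw [succ_nsmul, ← add_assoc, h, ih]

/-- Lemma B. -/
theorem lemmaB (k : ℕ) (b : ℕ) (hb : 1 ≤ b) (u : ℕ → Om) (hu : ∀ i, u (i + 1) = b • u i)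
    (f : ℕ → Om → ℝ) (hinv : ∀ i t, f i (t + u i) = f i t)
    (hmart : ∀ i t, ∑ s ∈ range b, f (i + 1) (t + s • u i) = 0) (n : ℕ) :
    Nq k (fun t => ∑ i ∈ range (n + 1), f i t) ≤ CA k * ∑ i ∈ range (n + 1), Nq k (f i) := by
  have hmul : ∀ i j, i ≤ j → ∃ c : ℕ, u j = c • u i := by
    intro i j hij
    induction j, hij using Nat.le_induction with
    | base => exact ⟨1, by simp⟩
    | succ j _ ih =>
      obtain ⟨c, hc⟩ := ih
      exact ⟨b * c, by rw [hu, hc, mul_smul]⟩
  have hinv' : ∀ n t, (∑ i ∈ range (n + 1), f i (t + u n)) = ∑ i ∈ range (n + 1), f i t := by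
    intro n t
    apply Finset.sum_congr rfl
    intro i hi
    obtain ⟨c, hc⟩ := hmul i n (by rw [Finset.mem_range] at hi; lia)
    rw [hc]
    exact inv_nsmul (hinv i) c t
  induction n with
  | zero =>
    simp only [zero_add, Finset.sum_range_one]
    have h1 := one_le_CA k
    have h2 := Nq_nonneg k (f 0)
    have : Nq k (fun t => f 0 t) = Nq k (f 0) := rfl
    rw [this]
    nlinarith
  | succ n ih =>
    set X : Om → ℝ := fun t => ∑ i ∈ range (n + 1), f i t with hX
    have e1 : (fun t => ∑ i ∈ range (n + 1 + 1), f i t) = fun t => X t + f (n + 1) t := by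
      funext t
      rw [Finset.sum_range_succ]
    have hXinv : ∀ t, X (t + u n) = X t := fun t => hinv' n t
    have horth : ∑ t, X t ^ (2 * k + 1) * f (n + 1) t = 0 := by
      have h1 : ∀ s : ℕ, ∑ t, X t ^ (2 * k + 1) * f (n + 1) t =
          ∑ t, X t ^ (2 * k + 1) * f (n + 1) (t + s • u n) := by
        intro s
        rw [← Equiv.sum_comp (Equiv.addRight (s • u n))]
        apply Finset.sum_congr rfl
        intro t _
        simp only [Equiv.coe_addRight]
        rw [inv_nsmul hXinv s t]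
      have h2 : (b : ℝ) * ∑ t, X t ^ (2 * k + 1) * f (n + 1) t = 0 := by
        calc (b : ℝ) * ∑ t, X t ^ (2 * k + 1) * f (n + 1) t
            = ∑ s ∈ range b, ∑ t, X t ^ (2 * k + 1) * f (n + 1) t := by
              rw [Finset.sum_const, Finset.card_range, nsmul_eq_mul]
          _ = ∑ s ∈ range b, ∑ t, X t ^ (2 * k + 1) * f (n + 1) (t + s • u n) :=
              Finset.sum_congr rfl (fun s _ => h1 s)
          _ = ∑ t, X t ^ (2 * k + 1) * ∑ s ∈ range b, f (n + 1) (t + s • u n) := by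
              rw [Finset.sum_comm]
              apply Finset.sum_congr rfl
              intro t _
              rw [Finset.mul_sum]
          _ = 0 := by simp [hmart]
      have hb' : (b : ℝ) ≠ 0 := by
        have : (0 : ℝ) < b := by exact_mod_cast hb
        exact this.ne'
      exact (mul_eq_zero.mp h2).resolve_left hb'
    have h3 := lemmaA k X (f (n + 1)) horth
    rw [e1, Finset.sum_range_succ, mul_add]
    linarith

/-- Lemma C. -/
theorem lemmaC (k : ℕ) (H : ℕ) : ∀ (m : ℕ) (b : Fin m → ℕ) (_ : ∀ j, 1 ≤ b j) (u : Fin m → ℕ → Om)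
    (_ : ∀ j i, u j (i + 1) = b j • u j i)
    (g : (Fin m → Fin (H + 1)) → Om → ℝ)
    (_ : ∀ l j t, g l (t + u j (l j)) = g l t)
    (_ : ∀ l j (i : ℕ) t, (l j : ℕ) = i + 1 → ∑ s ∈ range (b j), g l (t + s • u j i) = 0),
    Nq k (fun t => ∑ l, g l t) ≤ CA k ^ m * ∑ l, Nq k (g l) := by
  intro m
  induction m with
  | zero =>
    intro b _ u _ g _ _
    simp
  | succ m ih =>
    intro b hb u hu g hinv hmart
    -- split off the first direction
    have hsplit : ∀ F : (Fin (m + 1) → Fin (H + 1)) → ℝ,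
        ∑ l, F l = ∑ i ∈ range (H + 1), ∑ l' : Fin m → Fin (H + 1),
          F (Fin.cons (Fin.ofNat (H + 1) i) l') := by
      intro F
      rw [← (Fin.consEquiv (fun _ => Fin (H + 1))).sum_comp, Fintype.sum_prod_type,
        Finset.sum_range]
      apply Finset.sum_congr rfl
      intro i _
      apply Finset.sum_congr rfl
      intro l' _
      congr 1
      have : Fin.ofNat (H + 1) (i : ℕ) = i := by
        apply Fin.ext
        simp
      rw [this]
      rfl
    set G : ℕ → Om → ℝ := fun i t => if i < H + 1 then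
      ∑ l' : Fin m → Fin (H + 1), g (Fin.cons (Fin.ofNat (H + 1) i) l') t else 0 with hG
    have hGinv : ∀ i t, G i (t + u 0 i) = G i t := by
      intro i t
      simp only [hG]
      split_ifs with hi
      · apply Finset.sum_congr rfl
        intro l' _
        have := hinv (Fin.cons (Fin.ofNat (H + 1) i) l') 0 t
        rw [Fin.cons_zero] at this
        simpa [Nat.mod_eq_of_lt hi] using this
      · rfl
    have hGmart : ∀ i t, ∑ s ∈ range (b 0), G (i + 1) (t + s • u 0 i) = 0 := by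
      intro i t
      simp only [hG]
      split_ifs with hi
      · rw [Finset.sum_comm]
        apply Finset.sum_eq_zero
        intro l' _
        apply hmart (Fin.cons (Fin.ofNat (H + 1) (i + 1)) l') 0 i t
        rw [Fin.cons_zero]
        simp [Nat.mod_eq_of_lt hi]
      · simp
    have h1 := lemmaB k (b 0) (hb 0) (u 0) (hu 0) G hGinv hGmart H
    have h2 : (fun t => ∑ l, g l t) = fun t => ∑ i ∈ range (H + 1), G i t := by
      funext t
      rw [hsplit]
      apply Finset.sum_congr rfl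
      intro i hi
      rw [Finset.mem_range] at hi
      simp only [hG, if_pos hi]
    have h3 : ∀ i ∈ range (H + 1), Nq k (G i) ≤ CA k ^ m *
        ∑ l' : Fin m → Fin (H + 1), Nq k (g (Fin.cons (Fin.ofNat (H + 1) i) l')) := by
      intro i hi
      rw [Finset.mem_range] at hi
      have h4 := ih (fun j => b j.succ) (fun j => hb j.succ) (fun j => u j.succ)
        (fun j => hu j.succ) (fun l' => g (Fin.cons (Fin.ofNat (H + 1) i) l'))
        (fun l' j t => by
          have := hinv (Fin.cons (Fin.ofNat (H + 1) i) l') j.succ t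
          rwa [Fin.cons_succ] at this)
        (fun l' j i' t hl => by
          apply hmart (Fin.cons (Fin.ofNat (H + 1) i) l') j.succ i' t
          rwa [Fin.cons_succ])
      have h5 : G i = fun t => ∑ l' : Fin m → Fin (H + 1),
          g (Fin.cons (Fin.ofNat (H + 1) i) l') t := by
        funext t
        simp only [hG, if_pos hi]
      rw [h5]
      exact h4
    rw [h2]
    calc Nq k (fun t => ∑ i ∈ range (H + 1), G i t)
        ≤ CA k * ∑ i ∈ range (H + 1), Nq k (G i) := h1
      _ ≤ CA k * ∑ i ∈ range (H + 1), CA k ^ m *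
        ∑ l' : Fin m → Fin (H + 1), Nq k (g (Fin.cons (Fin.ofNat (H + 1) i) l')) := by
          apply mul_le_mul_of_nonneg_left (Finset.sum_le_sum h3)
          linarith [one_le_CA k]
      _ = CA k ^ (m + 1) * ∑ l, Nq k (g l) := by
          rw [hsplit (fun l => Nq k (g l)), ← Finset.mul_sum]
          ring

end group

end Pool.Agent.H.MP_81c263_nt
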