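import Pool.Agent.H.MP_81c263_nt.Interval
import Pool.Agent.H.MP_81c263_nt.Moment

/-!
The multi-dimensional decomposition and the moment bound for fixed corners `x, y`.
-/

set_option autoImplicit false

namespace Pool.Agent.H.MP_81c263_nt

open Finset

section multi

variable {m : ℕ} (b : Fin m → ℕ) [∀ j, NeZero (b j)] (h N : ℕ)

/-- The group of shifts. -/
abbrev Om : Type := (j : Fin m) → ZMod (b j ^ h)

/-- The functions `g_l`. -/
noncomputable def gg (x y : Fin (m + 1) → ℝ) (l : Fin m → Fin (h + 1)) (t : Om b h) : ℝ :=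
  ∑ n ∈ range N, ind (x 0) (y 0) ((n : ℝ) / N) *
    ∏ j, DD (b j) h (x j.succ) (y j.succ) (l j) (t j + (n : ZMod (b j ^ h)))

/-- The points. -/
noncomputable def pt (t : Om b h) (n : ℕ) : Fin (m + 1) → ℝ :=
  Fin.cons ((n : ℝ) / N)
    (fun j => (phi (b j) h (t j + (n : ZMod (b j ^ h))).val : ℝ) / (b j ^ h : ℕ))

variable {b h N}

omit [∀ j, NeZero (b j)] in
theorem sum_gg (x y : Fin (m + 1) → ℝ) (t : Om b h) :
    ∑ l, gg b h N x y l t = ∑ n ∈ range N, ∏ i, ind (x i) (y i) (pt b h N t n i) := by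
  unfold gg
  rw [Finset.sum_comm]
  apply Finset.sum_congr rfl
  intro n _
  rw [← Finset.mul_sum, Fin.prod_univ_succ]
  congr 1
  have h1 : ∀ j : Fin m, ind (x j.succ) (y j.succ) (pt b h N t n j.succ) =
      ∑ k : Fin (h + 1), DD (b j) h (x j.succ) (y j.succ) k (t j + (n : ZMod (b j ^ h))) := by
    intro j
    rw [Fin.sum_univ_eq_sum_range
      (fun k => DD (b j) h (x j.succ) (y j.succ) k (t j + (n : ZMod (b j ^ h)))) (h + 1), DD_sum]
    simp [fI, pt]
  simp only [h1]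
  rw [Finset.prod_univ_sum, Fintype.piFinset_univ]

omit [∀ j, NeZero (b j)] in
theorem gg_inv (x y : Fin (m + 1) → ℝ) (l : Fin m → Fin (h + 1)) (j : Fin m) (t : Om b h) :
    gg b h N x y l (t + Pi.single j (uu (b j) h (l j))) = gg b h N x y l t := by
  classical
  unfold gg
  apply Finset.sum_congr rfl
  intro n _
  congr 1
  apply Finset.prod_congr rfl
  intro j' _
  by_cases hj : j' = j
  · subst hj
    rw [Pi.add_apply, Pi.single_eq_same, add_right_comm]
    exact DD_inv _ _ (Nat.lt_succ_iff.mp (l j').isLt) _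
  · rw [Pi.add_apply, Pi.single_eq_of_ne hj, add_zero]

theorem gg_mart (x y : Fin (m + 1) → ℝ) (l : Fin m → Fin (h + 1)) (j : Fin m) (i : ℕ)
    (t : Om b h) (hl : (l j : ℕ) = i + 1) :
    ∑ s ∈ range (b j), gg b h N x y l (t + s • Pi.single j (uu (b j) h i)) = 0 := by
  classical
  unfold gg
  rw [Finset.sum_comm]
  apply Finset.sum_eq_zero
  intro n _
  rw [← Finset.mul_sum]
  have h1 : ∀ s : ℕ, ∏ j', DD (b j') h (x j'.succ) (y j'.succ) (l j')
      ((t + s • Pi.single (M := fun j => ZMod (b j ^ h)) j (uu (b j) h i)) j' + (n : ZMod (b j' ^ h))) =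
      DD (b j) h (x j.succ) (y j.succ) (i + 1) ((t j + (n : ZMod (b j ^ h))) + s • uu (b j) h i) *
      ∏ j' ∈ univ.erase j, DD (b j') h (x j'.succ) (y j'.succ) (l j') (t j' + (n : ZMod (b j' ^ h))) := by
    intro s
    rw [← Finset.mul_prod_erase univ _ (mem_univ j)]
    congr 1
    · rw [Pi.add_apply, Pi.smul_apply, Pi.single_eq_same, add_right_comm, hl]
    · apply Finset.prod_congr rfl
      intro j' hj'
      have hne : j' ≠ j := (Finset.mem_erase.mp hj').1
      rw [Pi.add_apply, Pi.smul_apply, Pi.single_eq_of_ne hne, smul_zero, add_zero]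
  simp only [h1]
  rw [← Finset.sum_mul, DD_mart _ _ (by have := (l j).isLt; lia), zero_mul, mul_zero]

/-- A weighted sum over the time coordinate. -/
theorem sum_ind_mul {x y : ℝ} (hx : x ∈ Set.Ico (0 : ℝ) 1) (hy : y ∈ Set.Ico (0 : ℝ) 1)
    {N : ℕ} (hN : 0 < N) (ψ : ℕ → ℝ) :
    ∑ n ∈ range N, ind x y ((n : ℝ) / N) * ψ n =
      ∑ n ∈ range ⌈y * N⌉₊, ψ n - ∑ n ∈ range ⌈x * N⌉₊, ψ n + cc x y * ∑ n ∈ range N, ψ n := by
  have h1 : ∀ z : ℝ, z ∈ Set.Ico (0 : ℝ) 1 → ∑ n ∈ range N, (if (n : ℝ) / N < z then 1 else 0) * ψ n =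
      ∑ n ∈ range ⌈z * N⌉₊, ψ n := by
    intro z hz
    have h2 : ∀ n : ℕ, (if (n : ℝ) / N < z then (1 : ℝ) else 0) * ψ n =
        if n < ⌈z * N⌉₊ then ψ n else 0 := by
      intro n
      simp only [div_lt_iff_ceil hN]
      split_ifs <;> simp
    simp only [h2]
    rw [← Finset.sum_filter]
    congr 1
    ext n
    simp only [mem_filter, mem_range]
    have := ceil_le (M := N) hz
    constructor
    · exact fun h => h.2
    · intro h; exact ⟨lt_of_lt_of_le h this, h⟩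
  rw [← h1 y hy, ← h1 x hx, Finset.mul_sum, ← Finset.sum_sub_distrib, ← Finset.sum_add_distrib]
  apply Finset.sum_congr rfl
  intro n _
  rw [ind_eq]
  ring

theorem gg_bound (hco : ∀ i j, i ≠ j → Nat.Coprime (b i) (b j)) {x y : Fin (m + 1) → ℝ}
    (hx : ∀ i, x i ∈ Set.Ico (0 : ℝ) 1) (hy : ∀ i, y i ∈ Set.Ico (0 : ℝ) 1) (hN : 0 < N)
    (l : Fin m → Fin (h + 1)) (hl : l ≠ 0) (t : Om b h) :
    |gg b h N x y l t| ≤ 3 * ∏ j, (2 * (b j : ℝ)) := by
  classical
  set F : Fin m → ℕ → ℝ := fun j n =>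
    DD (b j) h (x j.succ) (y j.succ) (l j) (t j + (n : ZMod (b j ^ h))) with hF
  have hb : ∀ j, 0 < b j := fun j => Nat.pos_of_ne_zero (NeZero.ne (b j))
  have hlj : ∀ j, (l j : ℕ) ≤ h := fun j => Nat.lt_succ_iff.mp (l j).isLt
  have hper : ∀ j ∈ (univ : Finset (Fin m)), Function.Periodic (F j) (b j ^ (l j : ℕ)) :=
    fun j _ => DD_periodic _ _ (hlj j) (t j)
  have hco' : ∀ i j, i ≠ j → Nat.Coprime (b i ^ (l i : ℕ)) (b j ^ (l j : ℕ)) :=
    fun i j hij => Nat.Coprime.pow _ _ (hco i j hij)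
  set P := ∏ j, b j ^ (l j : ℕ) with hP
  have hPpos : 0 < P := Finset.prod_pos (fun j _ => Nat.pow_pos (hb j))
  set ψ : ℕ → ℝ := fun n => ∏ j, F j n with hψ
  have hψper : Function.Periodic ψ P := prod_periodic univ _ F hper
  have hψ0 : ∑ n ∈ range P, ψ n = 0 := by
    rw [hP, hψ, sum_prod_coprime univ _ (fun j => Nat.pow_pos (hb j)) hco' F hper]
    obtain ⟨j, hj⟩ : ∃ j, l j ≠ 0 := by
      by_contra hcon
      push Not at hcon
      exact hl (funext hcon)
    apply Finset.prod_eq_zero (mem_univ j)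
    have hj' : (l j : ℕ) ≠ 0 := fun h0 => hj (Fin.ext h0)
    obtain ⟨i, hi⟩ := Nat.exists_eq_succ_of_ne_zero hj'
    simp only [hF]
    rw [hi]
    exact DD_sum_period _ _ (by have := hlj j; lia) (t j)
  have hψabs : ∑ n ∈ range P, |ψ n| ≤ ∏ j, (2 * (b j : ℝ)) := by
    have e1 : ∀ n, |ψ n| = ∏ j, |F j n| := fun n => by rw [hψ]; exact Finset.abs_prod _ _
    simp only [e1]
    rw [hP, sum_prod_coprime univ _ (fun j => Nat.pow_pos (hb j)) hco' (fun j n => |F j n|)
      (fun j hj n => by simp only; rw [hper j hj n])]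
    apply Finset.prod_le_prod
    · intro j _
      exact Finset.sum_nonneg (fun n _ => abs_nonneg _)
    · intro j _
      exact DD_abs_sum _ _ (hlj j) (t j)
  have hpart := abs_sum_range_le hPpos hψper hψ0 hψabs
  have e2 : gg b h N x y l t = ∑ n ∈ range ⌈y 0 * N⌉₊, ψ n - ∑ n ∈ range ⌈x 0 * N⌉₊, ψ n +
      cc (x 0) (y 0) * ∑ n ∈ range N, ψ n := by
    rw [← sum_ind_mul (hx 0) (hy 0) hN ψ]
    rfl
  rw [e2]
  have h3 := hpart ⌈y 0 * N⌉₊
  have h4 := hpart ⌈x 0 * N⌉₊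
  have h5 := hpart N
  have h6 := cc_bound (x 0) (y 0)
  have h7 : |cc (x 0) (y 0) * ∑ n ∈ range N, ψ n| ≤ ∏ j, (2 * (b j : ℝ)) := by
    rw [abs_mul, abs_of_nonneg h6.1]
    calc cc (x 0) (y 0) * |∑ n ∈ range N, ψ n| ≤ 1 * |∑ n ∈ range N, ψ n| :=
          mul_le_mul_of_nonneg_right h6.2 (abs_nonneg _)
      _ ≤ _ := by rw [one_mul]; exact h5
  calc _ ≤ |∑ n ∈ range ⌈y 0 * N⌉₊, ψ n - ∑ n ∈ range ⌈x 0 * N⌉₊, ψ n| +
        |cc (x 0) (y 0) * ∑ n ∈ range N, ψ n| := abs_add_le _ _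
    _ ≤ (|∑ n ∈ range ⌈y 0 * N⌉₊, ψ n| + |∑ n ∈ range ⌈x 0 * N⌉₊, ψ n|) +
        |cc (x 0) (y 0) * ∑ n ∈ range N, ψ n| := by
        have := abs_sub (∑ n ∈ range ⌈y 0 * N⌉₊, ψ n) (∑ n ∈ range ⌈x 0 * N⌉₊, ψ n)
        linarith
    _ ≤ _ := by linarith

theorem gg_zero {x y : Fin (m + 1) → ℝ}
    (hx : ∀ i, x i ∈ Set.Ico (0 : ℝ) 1) (hy : ∀ i, y i ∈ Set.Ico (0 : ℝ) 1) (hN : 0 < N)
    (hNb : ∀ j, N ≤ b j ^ h) (t : Om b h) :
    |gg b h N x y 0 t - N * ∏ i, len (x i) (y i)| ≤ m + 1 := by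
  have hN' : (0 : ℝ) < N := by exact_mod_cast hN
  set a : Fin (m + 1) → ℝ := Fin.cons (((⌈y 0 * N⌉₊ : ℝ) - ⌈x 0 * N⌉₊) / N + cc (x 0) (y 0))
    (fun j => ((⌈y j.succ * (b j ^ h : ℕ)⌉₊ : ℝ) - ⌈x j.succ * (b j ^ h : ℕ)⌉₊) / (b j ^ h : ℕ) +
      cc (x j.succ) (y j.succ)) with ha
  have e1 : gg b h N x y 0 t = N * ∏ i, a i := by
    unfold gg
    have e2 : ∀ n ∈ range N, ind (x 0) (y 0) ((n : ℝ) / N) *
        ∏ j, DD (b j) h (x j.succ) (y j.succ) (((0 : Fin m → Fin (h + 1)) j : Fin (h + 1)) : ℕ)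
          (t j + (n : ZMod (b j ^ h))) =
        ind (x 0) (y 0) ((n : ℝ) / N) * ∏ j : Fin m, a j.succ := by
      intro n _
      congr 1
      apply Finset.prod_congr rfl
      intro j _
      rw [Pi.zero_apply, Fin.val_zero, DD_zero (hx _) (hy _), ha, Fin.cons_succ]
    rw [Finset.sum_congr rfl e2, sum_ind_mul (hx 0) (hy 0) hN, Fin.prod_univ_succ]
    simp only [Finset.sum_const, card_range, nsmul_eq_mul, ha, Fin.cons_zero]
    field_simp
  have hone : ∀ i, |a i - len (x i) (y i)| ≤ 1 / N := by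
    intro i
    refine Fin.cases ?_ (fun j => ?_) i
    · rw [ha, Fin.cons_zero]
      exact ceil_len hN (hx 0) (hy 0)
    · rw [ha, Fin.cons_succ]
      refine (ceil_len (pow_pos' (b := b j) (h := h)) (hx j.succ) (hy j.succ)).trans ?_
      apply one_div_le_one_div_of_le hN'
      exact_mod_cast hNb j
  have hab : ∀ i, 0 ≤ a i ∧ a i ≤ 1 := by
    -- `a i` is a mean value of an indicator function
    intro i
    refine Fin.cases ?_ (fun j => ?_) i
    · rw [ha, Fin.cons_zero]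
      have e3 : ((⌈y 0 * N⌉₊ : ℝ) - ⌈x 0 * N⌉₊) / N + cc (x 0) (y 0) =
          (∑ n ∈ range N, ind (x 0) (y 0) ((n : ℝ) / N) * 1) / N := by
        rw [sum_ind_mul (hx 0) (hy 0) hN (fun _ => 1)]
        simp only [Finset.sum_const, card_range, nsmul_eq_mul, mul_one]
        field_simp
      rw [e3]
      constructor
      · apply div_nonneg _ hN'.le
        exact Finset.sum_nonneg (fun n _ => by rw [mul_one]; exact (ind_bound _ _ _).1)
      · rw [div_le_one hN']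
        calc _ ≤ ∑ n ∈ range N, (1 : ℝ) :=
              Finset.sum_le_sum (fun n _ => by rw [mul_one]; exact (ind_bound _ _ _).2)
          _ = N := by simp
    · rw [ha, Fin.cons_succ, ← DD_zero (hx j.succ) (hy j.succ) 0]
      exact EE_bound (Nat.pos_of_ne_zero (NeZero.ne (b j))) (fI_bound _ _) h 0
  have hlen : ∀ i, 0 ≤ len (x i) (y i) ∧ len (x i) (y i) ≤ 1 := fun i => len_bound (hx i) (hy i)
  rw [e1, ← mul_sub, abs_mul, abs_of_pos hN']
  calc (N : ℝ) * |∏ i, a i - ∏ i, len (x i) (y i)| ≤ N * ∑ i, |a i - len (x i) (y i)| :=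
        mul_le_mul_of_nonneg_left (abs_prod_sub_prod_le _ _ hab hlen) hN'.le
    _ ≤ N * ∑ i : Fin (m + 1), (1 / N : ℝ) :=
        mul_le_mul_of_nonneg_left (Finset.sum_le_sum (fun i _ => hone i)) hN'.le
    _ = m + 1 := by
        simp only [Finset.sum_const, card_univ, Fintype.card_fin, nsmul_eq_mul]
        push_cast
        field_simp

variable (b h) in
/-- The constant in the moment bound. -/
noncomputable def KK (k : ℕ) : ℝ :=
  Real.sqrt (CA k ^ m * ((h : ℝ) + 1) ^ m) * (3 * ∏ j, (2 * (b j : ℝ)))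

theorem KK_pos (k : ℕ) : 0 < KK b h k := by
  unfold KK
  have h1 : (0 : ℝ) < CA k := lt_of_lt_of_le one_pos (one_le_CA k)
  have h2 : (0 : ℝ) < ∏ j, (2 * (b j : ℝ)) := by
    apply Finset.prod_pos
    intro j _
    have : 0 < b j := Nat.pos_of_ne_zero (NeZero.ne (b j))
    positivity
  positivity

theorem moment_bound (hco : ∀ i j, i ≠ j → Nat.Coprime (b i) (b j)) {x y : Fin (m + 1) → ℝ}
    (hx : ∀ i, x i ∈ Set.Ico (0 : ℝ) 1) (hy : ∀ i, y i ∈ Set.Ico (0 : ℝ) 1) (hN : 0 < N)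
    (k : ℕ) :
    ∑ t : Om b h, (∑ l, gg b h N x y l t - gg b h N x y 0 t) ^ (2 * (k + 1)) ≤
      Fintype.card (Om b h) * KK b h k ^ (2 * (k + 1)) := by
  classical
  set B := 3 * ∏ j, (2 * (b j : ℝ)) with hB
  have hB0 : 0 ≤ B := by rw [hB]; positivity
  set g' : (Fin m → Fin (h + 1)) → Om b h → ℝ := fun l t =>
    if l = 0 then 0 else gg b h N x y l t with hg'
  have e1 : ∀ t, ∑ l, gg b h N x y l t - gg b h N x y 0 t = ∑ l, g' l t := by
    intro t
    rw [← Finset.add_sum_erase univ _ (mem_univ (0 : Fin m → Fin (h + 1))),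
      ← Finset.add_sum_erase univ (fun l => g' l t) (mem_univ (0 : Fin m → Fin (h + 1)))]
    simp only [hg', if_true, zero_add, add_sub_cancel_left]
    apply Finset.sum_congr rfl
    intro l hl
    rw [if_neg (Finset.mem_erase.mp hl).1]
  have hC := lemmaC (Om := Om b h) k h m b (fun j => Nat.pos_of_ne_zero (NeZero.ne (b j)))
    (fun j i => Pi.single j (uu (b j) h i))
    (fun j i => by
      rw [uu_succ]
      exact Pi.single_smul (f := fun j => ZMod (b j ^ h)) j (b j) (uu (b j) h i))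
    g'
    (fun l j t => by
      simp only [hg']
      split_ifs
      · rfl
      · exact gg_inv x y l j t)
    (fun l j i t hl => by
      simp only [hg']
      split_ifs with h0
      · simp
      · exact gg_mart x y l j i t hl)
  have hcard : (0 : ℝ) ≤ (Fintype.card (Om b h) : ℝ) := Nat.cast_nonneg _
  set Q := Real.rpow (Fintype.card (Om b h) : ℝ) ((((k + 1 : ℕ) : ℝ))⁻¹) with hQ
  have hQ0 : 0 ≤ Q := Real.rpow_nonneg hcard _
  have hQpow : Q ^ (k + 1) = Fintype.card (Om b h) :=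
    Real.rpow_inv_natCast_pow hcard (Nat.succ_ne_zero k)
  have hNq : ∀ l, Nq k (g' l) ≤ Q * B ^ 2 := by
    intro l
    apply le_of_pow_le_pow_left₀ (Nat.succ_ne_zero k) (by positivity)
    rw [Nq_pow, mul_pow, hQpow, ← pow_mul]
    calc ∑ w, g' l w ^ (2 * (k + 1)) ≤ ∑ w : Om b h, B ^ (2 * (k + 1)) := by
          apply Finset.sum_le_sum
          intro t _
          have h1 : |g' l t| ≤ B := by
            simp only [hg']
            split_ifs with h0
            · simpa using hB0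
            · exact gg_bound hco hx hy hN l h0 t
          have h2 : g' l t ^ (2 * (k + 1)) = |g' l t| ^ (2 * (k + 1)) := by
            rw [pow_mul, pow_mul, sq_abs]
          rw [h2]
          exact pow_le_pow_left₀ (abs_nonneg _) h1 _
      _ = Fintype.card (Om b h) * B ^ (2 * (k + 1)) := by
          rw [Finset.sum_const, card_univ, nsmul_eq_mul]
  have hsum : ∑ l : Fin m → Fin (h + 1), Nq k (g' l) ≤ ((h : ℝ) + 1) ^ m * (Q * B ^ 2) := by
    calc ∑ l : Fin m → Fin (h + 1), Nq k (g' l) ≤ ∑ l : Fin m → Fin (h + 1), Q * B ^ 2 :=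
          Finset.sum_le_sum (fun l _ => hNq l)
      _ = _ := by
          rw [Finset.sum_const, card_univ, nsmul_eq_mul]
          congr 1
          rw [Fintype.card_fun]
          simp
  have hCA : 0 ≤ CA k ^ m := by
    have := one_le_CA k
    positivity
  have hfin : Nq k (fun t => ∑ l, g' l t) ≤ Q * KK b h k ^ 2 := by
    calc Nq k (fun t => ∑ l, g' l t) ≤ CA k ^ m * ∑ l, Nq k (g' l) := hC
      _ ≤ CA k ^ m * (((h : ℝ) + 1) ^ m * (Q * B ^ 2)) := mul_le_mul_of_nonneg_left hsum hCA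
      _ = Q * KK b h k ^ 2 := by
          have h3 : 0 ≤ CA k ^ m * ((h : ℝ) + 1) ^ m := by positivity
          have h4 := Real.sq_sqrt h3
          rw [KK, ← hB, mul_pow (Real.sqrt (CA k ^ m * ((h : ℝ) + 1) ^ m)) B 2, h4]
          ring
  simp only [e1]
  rw [← Nq_pow k (fun t => ∑ l, g' l t), ← hQpow, pow_mul, ← mul_pow]
  exact pow_le_pow_left₀ (Nq_nonneg k _) hfin _

end multi

end Pool.Agent.H.MP_81c263_nt
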