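import Pool.Agent.H.MP_81c263_nt.Periodic

/-!
Digit reversal and the one-dimensional martingale decomposition.
-/

set_option autoImplicit false

namespace Pool.Agent.H.MP_81c263_nt

open Finset

/-! ### Digit reversal -/

/-- Digit reversal: the first `k` base `b` digits of `r`, in reversed order. -/
def phi (b : ℕ) : ℕ → ℕ → ℕ
  | 0, _ => 0
  | k + 1, r => b * phi b k r + (r / b ^ k) % b

theorem phi_lt {b : ℕ} (hb : 0 < b) (k r : ℕ) : phi b k r < b ^ k := by
  induction k with
  | zero => simp [phi]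
  | succ k ih =>
    have h1 : (r / b ^ k) % b < b := Nat.mod_lt _ hb
    have h2 : b * (phi b k r + 1) ≤ b * b ^ k := Nat.mul_le_mul_left b ih
    rw [phi, pow_succ']
    rw [mul_add, mul_one] at h2
    lia

theorem phi_succ_div {b : ℕ} (hb : 0 < b) (k r : ℕ) : phi b (k + 1) r / b = phi b k r := by
  rw [phi, Nat.mul_add_div hb, Nat.div_eq_of_lt (Nat.mod_lt _ hb), add_zero]

theorem phi_add_div {b : ℕ} (hb : 0 < b) (k e r : ℕ) : phi b (k + e) r / b ^ e = phi b k r := by
  induction e with
  | zero => simp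
  | succ e ih =>
    rw [pow_succ', ← Nat.div_div_eq_div_mul, ← add_assoc, phi_succ_div hb, ih]

theorem phi_eq_iff {b : ℕ} (hb : 0 < b) (k r r' : ℕ) :
    phi b k r = phi b k r' ↔ r ≡ r' [MOD b ^ k] := by
  induction k with
  | zero => simp [phi, Nat.modEq_one]
  | succ k ih =>
    have h0 : ∀ s, (s / b ^ k) % b < b := fun s => Nat.mod_lt _ hb
    have h1 : phi b (k + 1) r = phi b (k + 1) r' ↔
        phi b k r = phi b k r' ∧ (r / b ^ k) % b = (r' / b ^ k) % b := by
      constructor
      · intro h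
        have h2 : phi b k r = phi b k r' := by
          rw [← phi_succ_div hb, h, phi_succ_div hb]
        refine ⟨h2, ?_⟩
        rw [phi, phi, h2] at h
        exact Nat.add_left_cancel h
      · rintro ⟨h2, h3⟩
        rw [phi, phi, h2, h3]
    rw [h1, ih, Nat.ModEq, Nat.ModEq, Nat.mod_pow_succ, Nat.mod_pow_succ]
    constructor
    · rintro ⟨h2, h3⟩
      rw [h2, h3]
    · intro h
      have hpos : 0 < b ^ k := Nat.pow_pos hb
      have h2 : r % b ^ k = r' % b ^ k := by
        have := congrArg (· % b ^ k) h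
        simpa [Nat.add_mul_mod_self_left] using this
      refine ⟨h2, ?_⟩
      rw [h2] at h
      exact Nat.eq_of_mul_eq_mul_left hpos (Nat.add_left_cancel h)

/-! ### Averaging operators -/

section avg

variable {G : Type} [AddCommGroup G]

/-- Successive averages. -/
noncomputable def EE (b h : ℕ) (u : ℕ → G) (f : G → ℝ) : ℕ → G → ℝ
  | 0 => f
  | j + 1 => fun r => (1 / (b : ℝ)) * ∑ s ∈ range b, EE b h u f j (r + s • u (h - (j + 1)))

variable {b h : ℕ} {u : ℕ → G} {f : G → ℝ}

theorem sum_shift_eq (b : ℕ) (F : ℕ → ℝ) (hF : F b = F 0) :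
    ∑ s ∈ range b, F (s + 1) = ∑ s ∈ range b, F s := by
  have h1 := Finset.sum_range_succ F b
  have h2 := Finset.sum_range_succ' F b
  rw [h1, hF] at h2
  exact (add_right_cancel h2).symm

theorem EE_inv (hu : ∀ i, u (i + 1) = b • u i) (hf : ∀ r, f (r + u h) = f r) :
    ∀ j, j ≤ h → ∀ r, EE b h u f j (r + u (h - j)) = EE b h u f j r := by
  intro j
  induction j with
  | zero => intro _ r; simpa [EE] using hf r
  | succ j ih =>
    intro hj r
    have ih' := ih (by lia)
    have hc : u (h - j) = b • u (h - (j + 1)) := by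
      rw [← hu]; congr 1; lia
    simp only [EE]
    congr 1
    have e1 : ∀ s : ℕ, r + u (h - (j + 1)) + s • u (h - (j + 1)) =
        r + (s + 1) • u (h - (j + 1)) := by
      intro s; rw [add_smul, one_smul]; abel
    simp only [e1]
    apply sum_shift_eq b (fun s => EE b h u f j (r + s • u (h - (j + 1))))
    simp only [zero_smul, add_zero]
    rw [← hc, ih']

theorem EE_mart (hb : 0 < b) (hu : ∀ i, u (i + 1) = b • u i) (hf : ∀ r, f (r + u h) = f r)
    (j : ℕ) (hj : j + 1 ≤ h) (r : G) :
    ∑ s ∈ range b, (EE b h u f j (r + s • u (h - (j + 1))) -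
      EE b h u f (j + 1) (r + s • u (h - (j + 1)))) = 0 := by
  have hb' : (b : ℝ) ≠ 0 := by exact_mod_cast hb.ne'
  have hinv := EE_inv (b := b) (h := h) (u := u) (f := f) hu hf (j + 1) hj
  have e1 : ∀ s : ℕ, EE b h u f (j + 1) (r + s • u (h - (j + 1))) = EE b h u f (j + 1) r := by
    intro s
    induction s with
    | zero => simp
    | succ s ih => rw [succ_nsmul, ← add_assoc, hinv, ih]
  rw [Finset.sum_sub_distrib]
  simp only [e1]
  rw [Finset.sum_const, card_range, nsmul_eq_mul]
  have e2 : EE b h u f (j + 1) r =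
    (1 / (b : ℝ)) * ∑ s ∈ range b, EE b h u f j (r + s • u (h - (j + 1))) := rfl
  rw [e2]
  field_simp
  ring

theorem EE_bound (hb : 0 < b) (hf : ∀ r, 0 ≤ f r ∧ f r ≤ 1) (j : ℕ) :
    ∀ r, 0 ≤ EE b h u f j r ∧ EE b h u f j r ≤ 1 := by
  have hb' : (0 : ℝ) < b := by exact_mod_cast hb
  induction j with
  | zero => exact hf
  | succ j ih =>
    intro r
    simp only [EE]
    constructor
    · exact mul_nonneg (by positivity) (Finset.sum_nonneg (fun s _ => (ih _).1))
    · have : ∑ s ∈ range b, EE b h u f j (r + s • u (h - (j + 1))) ≤ ∑ s ∈ range b, (1 : ℝ) :=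
        Finset.sum_le_sum (fun s _ => (ih _).2)
      rw [Finset.sum_const, card_range, nsmul_eq_mul, mul_one] at this
      calc 1 / (b : ℝ) * _ ≤ 1 / (b : ℝ) * b := mul_le_mul_of_nonneg_left this (by positivity)
        _ = 1 := by field_simp

theorem EE_const (hb : 0 < b) (hu : ∀ i, u (i + 1) = b • u i) (i : ℕ) (r : G) (v : ℝ)
    (hf : ∀ n : ℕ, f (r + n • u i) = v) (j : ℕ) (hj : i + j ≤ h) :
    ∀ n : ℕ, EE b h u f j (r + n • u i) = v := by
  have hb' : (b : ℝ) ≠ 0 := by exact_mod_cast hb.ne'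
  induction j with
  | zero => exact hf
  | succ j ih =>
    intro n
    have hmul : ∀ i' , i ≤ i' → ∃ c : ℕ, u i' = c • u i := by
      intro i' hij
      induction i', hij using Nat.le_induction with
      | base => exact ⟨1, by simp⟩
      | succ i' _ ih =>
        obtain ⟨c, hc⟩ := ih
        exact ⟨b * c, by rw [hu, hc, mul_smul]⟩
    obtain ⟨c, hc⟩ := hmul (h - (j + 1)) (by lia)
    simp only [EE, hc]
    have e1 : ∀ s : ℕ, r + n • u i + s • (c • u i) = r + (n + s * c) • u i := by
      intro s; rw [add_smul, mul_smul, add_assoc]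
    simp only [e1, ih (by lia)]
    rw [Finset.sum_const, card_range, nsmul_eq_mul]
    field_simp

theorem EE_sum [Fintype G] (hb : 0 < b) (j : ℕ) : ∑ r, EE b h u f j r = ∑ r, f r := by
  have hb' : (b : ℝ) ≠ 0 := by exact_mod_cast hb.ne'
  induction j with
  | zero => rfl
  | succ j ih =>
    simp only [EE]
    rw [← Finset.mul_sum, Finset.sum_comm]
    have : ∀ s : ℕ, ∑ r, EE b h u f j (r + s • u (h - (j + 1))) = ∑ r, f r := by
      intro s
      rw [← ih]
      exact Equiv.sum_comp (Equiv.addRight (s • u (h - (j + 1)))) (EE b h u f j)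
    simp only [this]
    rw [Finset.sum_const, card_range, nsmul_eq_mul]
    field_simp

/-- The martingale differences. -/
noncomputable def dd (b h : ℕ) (u : ℕ → G) (f : G → ℝ) : ℕ → G → ℝ
  | 0 => EE b h u f h
  | k + 1 => fun r => EE b h u f (h - (k + 1)) r - EE b h u f (h - k) r

theorem dd_sum (r : G) : ∑ k ∈ range (h + 1), dd b h u f k r = f r := by
  rw [Finset.sum_range_succ']
  have : ∑ k ∈ range h, dd b h u f (k + 1) r = EE b h u f (h - h) r - EE b h u f (h - 0) r := by
    exact Finset.sum_range_sub (fun k => EE b h u f (h - k) r) h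
  rw [this]
  simp [dd, EE]

theorem dd_inv (hu : ∀ i, u (i + 1) = b • u i) (hf : ∀ r, f (r + u h) = f r) (k : ℕ)
    (hk : k ≤ h) (r : G) : dd b h u f k (r + u k) = dd b h u f k r := by
  cases k with
  | zero =>
    have := EE_inv (b := b) (h := h) (u := u) (f := f) hu hf h le_rfl r
    simpa [dd] using this
  | succ k =>
    simp only [dd]
    have h1 := EE_inv (b := b) (h := h) (u := u) (f := f) hu hf (h - (k + 1)) (by lia)
    have h2 := EE_inv (b := b) (h := h) (u := u) (f := f) hu hf (h - k) (by lia)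
    rw [show h - (h - (k + 1)) = k + 1 by lia] at h1
    rw [show h - (h - k) = k by lia] at h2
    rw [h1 r, hu]
    have h3 : ∀ s : ℕ, EE b h u f (h - k) (r + s • u k) = EE b h u f (h - k) r := by
      intro s
      induction s with
      | zero => simp
      | succ s ih => rw [succ_nsmul, ← add_assoc, h2, ih]
    rw [h3]

theorem dd_mart (hb : 0 < b) (hu : ∀ i, u (i + 1) = b • u i) (hf : ∀ r, f (r + u h) = f r)
    (k : ℕ) (hk : k + 1 ≤ h) (r : G) :
    ∑ s ∈ range b, dd b h u f (k + 1) (r + s • u k) = 0 := by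
  have h1 := EE_mart (b := b) (h := h) (u := u) (f := f) hb hu hf (h - (k + 1)) (by lia) r
  rw [show h - (h - (k + 1) + 1) = k by lia, show h - (k + 1) + 1 = h - k by lia] at h1
  exact h1

theorem dd_bound (hb : 0 < b) (hf : ∀ r, 0 ≤ f r ∧ f r ≤ 1) (k : ℕ) (r : G) :
    |dd b h u f k r| ≤ 1 := by
  cases k with
  | zero =>
    have := EE_bound (h := h) (u := u) hb hf h r
    simp only [dd]
    rw [abs_le]; constructor <;> linarith
  | succ k =>
    have h1 := EE_bound (h := h) (u := u) hb hf (h - (k + 1)) r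
    have h2 := EE_bound (h := h) (u := u) hb hf (h - k) r
    simp only [dd]
    rw [abs_le]; constructor <;> linarith

theorem dd_zero_of_const (hb : 0 < b) (hu : ∀ i, u (i + 1) = b • u i) (k : ℕ) (hk : k + 1 ≤ h)
    (r : G) (v : ℝ) (hf : ∀ n : ℕ, f (r + n • u k) = v) : dd b h u f (k + 1) r = 0 := by
  have h1 := EE_const (h := h) hb hu k r v hf (h - (k + 1)) (by lia) 0
  have h2 := EE_const (h := h) hb hu k r v hf (h - k) (by lia) 0
  simp only [zero_smul, add_zero] at h1 h2
  simp only [dd, h1, h2, sub_self]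

end avg

/-! ### The group `ZMod (b ^ h)` -/

section zmod

variable {b h : ℕ}

/-- The steps `b ^ k` in `ZMod (b ^ h)`. -/
def uu (b h : ℕ) (k : ℕ) : ZMod (b ^ h) := ((b ^ k : ℕ) : ZMod (b ^ h))

theorem uu_succ (k : ℕ) : uu b h (k + 1) = b • uu b h k := by
  simp [uu, pow_succ']

theorem uu_top : uu b h h = 0 := by
  simp only [uu]
  exact ZMod.natCast_self _

theorem uu_zero : uu b h 0 = 1 := by
  simp [uu]

/-- The threshold functions. -/
def thr (b h X : ℕ) (r : ZMod (b ^ h)) : ℝ := if phi b h r.val < X then 1 else 0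

theorem phi_val_add [NeZero b] {k : ℕ} (hk : k ≤ h) (t : ZMod (b ^ h)) (n : ℕ) :
    phi b k (t + (n : ZMod (b ^ h))).val = phi b k (t.val + n) := by
  have hb : 0 < b := Nat.pos_of_ne_zero (NeZero.ne b)
  rw [phi_eq_iff hb]
  have h1 : (t + (n : ZMod (b ^ h))).val ≡ t.val + n [MOD b ^ h] := by
    rw [ZMod.val_add, ZMod.val_natCast]
    have h2 : (t.val + n % b ^ h) % b ^ h ≡ t.val + n % b ^ h [MOD b ^ h] := Nat.mod_modEq _ _
    exact h2.trans (Nat.ModEq.add_left _ (Nat.mod_modEq _ _))
  exact h1.of_dvd (pow_dvd_pow b hk)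

theorem phi_val_add_uu [NeZero b] {k : ℕ} (hk : k ≤ h) (t : ZMod (b ^ h)) (n : ℕ) :
    phi b k (t + n • uu b h k).val = phi b k t.val := by
  have hb : 0 < b := Nat.pos_of_ne_zero (NeZero.ne b)
  have h1 : n • uu b h k = ((n * b ^ k : ℕ) : ZMod (b ^ h)) := by
    simp [uu]
  rw [h1, phi_val_add hk, phi_eq_iff hb]
  have : n * b ^ k ≡ 0 [MOD b ^ k] := (Nat.modEq_zero_iff_dvd).2 (dvd_mul_left _ _)
  simpa using Nat.ModEq.add_left t.val this

theorem thr_const [NeZero b] {k : ℕ} (hk : k ≤ h) (X : ℕ) (r : ZMod (b ^ h))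
    (hr : phi b k r.val ≠ X / b ^ (h - k)) (n : ℕ) :
    thr b h X (r + n • uu b h k) = if phi b k r.val < X / b ^ (h - k) then 1 else 0 := by
  have hb : 0 < b := Nat.pos_of_ne_zero (NeZero.ne b)
  set ρ := phi b h (r + n • uu b h k).val with hρ
  have h1 : ρ / b ^ (h - k) = phi b k r.val := by
    have h2 := phi_add_div hb k (h - k) (r + n • uu b h k).val
    rw [show k + (h - k) = h by lia] at h2
    rw [hρ, h2, phi_val_add_uu hk]
  unfold thr
  rw [← hρ]
  rw [← h1] at hr ⊢
  have hp : 0 < b ^ (h - k) := Nat.pow_pos hb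
  by_cases hlt : ρ / b ^ (h - k) < X / b ^ (h - k)
  · have : ρ < X := by
      by_contra hcon
      exact absurd (Nat.div_le_div_right (c := b ^ (h - k)) (not_lt.mp hcon)) (not_le.mpr hlt)
    rw [if_pos this, if_pos hlt]
  · have : ¬ ρ < X := by
      intro hcon
      have h3 : ρ / b ^ (h - k) ≤ X / b ^ (h - k) := Nat.div_le_div_right hcon.le
      exact hlt (lt_of_le_of_ne h3 hr)
    rw [if_neg this, if_neg hlt]

theorem card_phi_eq_le [NeZero b] (k T w : ℕ) :
    ((range (b ^ (k + 1))).filter (fun n => phi b k (T + n) = w)).card ≤ b := by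
  have hb : 0 < b := Nat.pos_of_ne_zero (NeZero.ne b)
  have hp : 0 < b ^ k := Nat.pow_pos hb
  have : ((range (b ^ (k + 1))).filter (fun n => phi b k (T + n) = w)).card ≤ (range b).card := by
    apply Finset.card_le_card_of_injOn (fun n => n / b ^ k)
    · intro n hn
      simp only [coe_filter, mem_range, Set.mem_ofPred_eq] at hn
      simp only [coe_range, Set.mem_Iio]
      rw [Nat.div_lt_iff_lt_mul hp, mul_comm, ← pow_succ]
      exact hn.1
    · intro n hn n' hn' heq
      simp only [coe_filter, mem_range, Set.mem_ofPred_eq] at hn hn'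
      simp only at heq
      have h1 : phi b k (T + n) = phi b k (T + n') := by rw [hn.2, hn'.2]
      rw [phi_eq_iff hb] at h1
      have h2 : n ≡ n' [MOD b ^ k] := Nat.ModEq.add_left_cancel' T h1
      rw [← Nat.div_add_mod n (b ^ k), ← Nat.div_add_mod n' (b ^ k), heq, h2]
  simpa using this

theorem sum_thr [NeZero b] (X : ℕ) (hX : X ≤ b ^ h) :
    ∑ r : ZMod (b ^ h), thr b h X r = X := by
  have hb : 0 < b := Nat.pos_of_ne_zero (NeZero.ne b)
  -- `r ↦ phi b h r.val` is a bijection onto `Fin (b ^ h)`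
  let e : ZMod (b ^ h) → Fin (b ^ h) := fun r => ⟨phi b h r.val, phi_lt hb h _⟩
  have hinj : Function.Injective e := by
    intro r r' hrr
    simp only [e, Fin.mk.injEq] at hrr
    rw [phi_eq_iff hb] at hrr
    have h1 := Nat.ModEq.eq_of_lt_of_lt hrr (ZMod.val_lt r) (ZMod.val_lt r')
    exact ZMod.val_injective _ h1
  have hbij : Function.Bijective e := by
    rw [Fintype.bijective_iff_injective_and_card]
    exact ⟨hinj, by rw [ZMod.card, Fintype.card_fin]⟩
  have h1 : ∑ r : ZMod (b ^ h), thr b h X r = ∑ i : Fin (b ^ h), if (i : ℕ) < X then (1 : ℝ) else 0 := by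
    rw [← Equiv.sum_comp (Equiv.ofBijective e hbij)]
    rfl
  rw [h1, Fin.sum_univ_eq_sum_range (fun i => if i < X then (1 : ℝ) else 0) (b ^ h),
    ← Finset.sum_filter]
  have h2 : (range (b ^ h)).filter (fun i => i < X) = range X := by
    ext i
    simp only [mem_filter, mem_range]
    lia
  rw [h2]
  simp

end zmod

end Pool.Agent.H.MP_81c263_nt
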