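import Mathlib

/-!
Sums of products of periodic functions with coprime periods.
-/

set_option autoImplicit false

namespace Pool.Agent.H.MP_81c263_nt

open Finset

theorem sum_mul_coprime {a b : ℕ} (ha : 0 < a) (hb : 0 < b) (hab : Nat.Coprime a b)
    {F G : ℕ → ℝ} (hF : Function.Periodic F a) (hG : Function.Periodic G b) :
    ∑ n ∈ range (a * b), F n * G n = (∑ n ∈ range a, F n) * ∑ n ∈ range b, G n := by
  rw [Finset.sum_mul_sum, ← Finset.sum_product']
  apply Finset.sum_nbij (fun n => (n % a, n % b))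
  · intro n _
    simp only [mem_product, mem_range]
    exact ⟨Nat.mod_lt _ ha, Nat.mod_lt _ hb⟩
  · intro n hn n' hn' h
    simp only [coe_range, Set.mem_Iio] at hn hn'
    simp only [Prod.mk.injEq] at h
    have h1 : n ≡ n' [MOD a * b] := (Nat.modEq_and_modEq_iff_modEq_mul hab).1 ⟨h.1, h.2⟩
    exact Nat.ModEq.eq_of_lt_of_lt h1 hn hn'
  · rintro ⟨i, j⟩ hij
    simp only [coe_product, coe_range, Set.mem_prod, Set.mem_Iio] at hij
    refine ⟨(Nat.chineseRemainder hab i j : ℕ), ?_, ?_⟩
    · simp only [coe_range, Set.mem_Iio]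
      exact Nat.chineseRemainder_lt_mul hab i j ha.ne' hb.ne'
    · have h1 := (Nat.chineseRemainder hab i j).2
      simp only [Prod.mk.injEq]
      constructor
      · have := h1.1
        rw [Nat.ModEq, Nat.mod_eq_of_lt hij.1] at this
        exact this
      · have := h1.2
        rw [Nat.ModEq, Nat.mod_eq_of_lt hij.2] at this
        exact this
  · intro n _
    simp only
    rw [hF.map_mod_nat, hG.map_mod_nat]

theorem prod_periodic {ι : Type} (S : Finset ι) (a : ι → ℕ) (F : ι → ℕ → ℝ)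
    (hF : ∀ j ∈ S, Function.Periodic (F j) (a j)) :
    Function.Periodic (fun n => ∏ j ∈ S, F j n) (∏ j ∈ S, a j) := by
  intro n
  apply Finset.prod_congr rfl
  intro j hj
  obtain ⟨c, hc⟩ := Finset.dvd_prod_of_mem a hj
  rw [hc, mul_comm]
  exact (hF j hj).nat_mul c n

theorem sum_prod_coprime {ι : Type} [DecidableEq ι] (S : Finset ι) (a : ι → ℕ)
    (ha : ∀ j, 0 < a j) (hco : ∀ i j, i ≠ j → Nat.Coprime (a i) (a j)) (F : ι → ℕ → ℝ)
    (hF : ∀ j ∈ S, Function.Periodic (F j) (a j)) :
    ∑ n ∈ range (∏ j ∈ S, a j), ∏ j ∈ S, F j n = ∏ j ∈ S, ∑ n ∈ range (a j), F j n := by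
  induction S using Finset.induction_on with
  | empty => simp
  | insert i S hi ih =>
    rw [Finset.prod_insert hi, Finset.prod_insert hi]
    have h1 : ∀ n, ∏ j ∈ insert i S, F j n = F i n * ∏ j ∈ S, F j n := fun n =>
      Finset.prod_insert hi
    simp only [h1]
    rw [sum_mul_coprime (ha i) (Finset.prod_pos (fun j _ => ha j)) ?_ (hF i (by simp))
      (prod_periodic S a F (fun j hj => hF j (by simp [hj]))),
      ih (fun j hj => hF j (by simp [hj]))]
    apply Nat.Coprime.prod_right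
    intro j hj
    apply hco
    rintro rfl
    exact hi hj

theorem abs_sum_range_le {M : ℕ} (hM : 0 < M) {ψ : ℕ → ℝ} (hψ : Function.Periodic ψ M)
    (h0 : ∑ n ∈ range M, ψ n = 0) {B : ℝ} (hB : ∑ n ∈ range M, |ψ n| ≤ B) (L : ℕ) :
    |∑ n ∈ range L, ψ n| ≤ B := by
  induction L using Nat.strong_induction_on with
  | _ L ih =>
    rcases Nat.lt_or_ge L M with hL | hL
    · calc |∑ n ∈ range L, ψ n| ≤ ∑ n ∈ range L, |ψ n| := Finset.abs_sum_le_sum_abs _ _
        _ ≤ ∑ n ∈ range M, |ψ n| := by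
          apply Finset.sum_le_sum_of_subset_of_nonneg
          · exact Finset.range_subset_range.mpr hL.le
          · intro n _ _; exact abs_nonneg _
        _ ≤ B := hB
    · obtain ⟨c, rfl⟩ := Nat.exists_eq_add_of_le hL
      rw [Finset.sum_range_add, h0, zero_add]
      have : ∀ n, ψ (M + n) = ψ n := fun n => by rw [add_comm]; exact hψ n
      simp only [this]
      exact ih c (by lia)

/-- Splitting a sum over `range (a * b)` into residues mod `a`. -/
theorem sum_range_mul_eq (a b : ℕ) (F : ℕ → ℝ) :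
    ∑ n ∈ range (a * b), F n = ∑ i ∈ range a, ∑ s ∈ range b, F (i + s * a) := by
  induction b with
  | zero => simp
  | succ b ih =>
    rw [Nat.mul_succ, Finset.sum_range_add, ih, ← Finset.sum_add_distrib]
    apply Finset.sum_congr rfl
    intro i _
    rw [Finset.sum_range_succ]
    congr 2
    ring

theorem abs_prod_sub_prod_le {m : ℕ} (a c : Fin m → ℝ) (ha : ∀ i, 0 ≤ a i ∧ a i ≤ 1)
    (hc : ∀ i, 0 ≤ c i ∧ c i ≤ 1) : |∏ i, a i - ∏ i, c i| ≤ ∑ i, |a i - c i| := by
  induction m with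
  | zero => simp
  | succ m ih =>
    rw [Fin.prod_univ_succ, Fin.prod_univ_succ, Fin.sum_univ_succ]
    have h1 := ih (fun i => a i.succ) (fun i => c i.succ) (fun i => ha _) (fun i => hc _)
    have h2 : a 0 * ∏ i : Fin m, a i.succ - c 0 * ∏ i : Fin m, c i.succ =
        (a 0 - c 0) * ∏ i : Fin m, a i.succ +
          c 0 * (∏ i : Fin m, a i.succ - ∏ i : Fin m, c i.succ) := by ring
    rw [h2]
    have h3 : |∏ i : Fin m, a i.succ| ≤ 1 := by
      rw [abs_of_nonneg (Finset.prod_nonneg (fun i _ => (ha _).1))]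
      exact Finset.prod_le_one (fun i _ => (ha _).1) (fun i _ => (ha _).2)
    have h4 : |c 0| ≤ 1 := by rw [abs_of_nonneg (hc 0).1]; exact (hc 0).2
    calc _ ≤ |(a 0 - c 0) * ∏ i : Fin m, a i.succ| +
          |c 0 * (∏ i : Fin m, a i.succ - ∏ i : Fin m, c i.succ)| := abs_add_le _ _
      _ = |a 0 - c 0| * |∏ i : Fin m, a i.succ| +
          |c 0| * |∏ i : Fin m, a i.succ - ∏ i : Fin m, c i.succ| := by rw [abs_mul, abs_mul]
      _ ≤ |a 0 - c 0| * 1 + 1 * ∑ i : Fin m, |a i.succ - c i.succ| := by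
          apply add_le_add
          · exact mul_le_mul_of_nonneg_left h3 (abs_nonneg _)
          · exact mul_le_mul h4 h1 (abs_nonneg _) (by norm_num)
      _ = _ := by ring

end Pool.Agent.H.MP_81c263_nt
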